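import Pool.Agent.KLS.StageE

/-!
# KLS-ChainE: a chain of stages
PLAN. By induction on `m` (downwards): for every `X : Finset V` there are `X m = X ⊇ ... ⊇ X 0`,
positions and a colouring of `X m \ X 0` with `∑ s ∈ Icc 1 m, cst (N s) (H s)` colours
(`stageE` gives `X (m-1) = Y` and a colouring of `X m \ X (m-1)`; put the palettes next to each
other). If `X 0 = ∅` this colours the whole digraph. Compare `Pool.AAT.chain_col` (AAT/Chain).
-/

set_option autoImplicit false

namespace Pool.KLS

open Finset Pool.KLT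
open scoped Classical

private theorem chainE_aux {V : Type} [Fintype V] (A : V → V → Prop) (N H : ℕ → ℕ) (m : ℕ) : ∀ X : Finset V,
    ∃ (Z : ℕ → Finset V) (q : ℕ → V → ℕ) (c : V → ℕ), Z m = X ∧
      (∀ s, 1 ≤ s → s ≤ m → Stg A (N s) (H s) (Z s) (Z (s - 1)) (q s)) ∧
      (∀ v ∈ X, v ∉ Z 0 → c v < ∑ s ∈ Icc 1 m, cst (N s) (H s)) ∧
      ∀ u ∈ X, u ∉ Z 0 → ∀ v ∈ X, v ∉ Z 0 → u ≠ v → A u v → c u ≠ c v := by
  induction m with
  | zero =>
    intro X
    exact ⟨fun _ => X, fun _ _ => 0, fun _ => 0, rfl, fun s h1 h2 => by omega,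
      fun v h1 h2 => absurd h1 h2, fun u h1 h2 => absurd h1 h2⟩
  | succ m ih =>
    intro X
    obtain ⟨q1, Y, hS, c1, hc1, hc2⟩ := stageE A (N (m + 1)) (H (m + 1)) X
    obtain ⟨Z, q, c, hZ, hq, hc, hc'⟩ := ih Y
    have hsum : ∑ s ∈ Icc 1 (m + 1), cst (N s) (H s) =
        ∑ s ∈ Icc 1 m, cst (N s) (H s) + cst (N (m + 1)) (H (m + 1)) :=
      Finset.sum_Icc_succ_top (by omega) _
    refine ⟨fun s => if s ≤ m then Z s else X, fun s => if s ≤ m then q s else q1,
      fun v => if v ∈ Y then c v else ∑ s ∈ Icc 1 m, cst (N s) (H s) + c1 v, ?_, ?_, ?_, ?_⟩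
    · simp
    · intro s hs1 hs2
      by_cases h : s ≤ m
      · have h' : s - 1 ≤ m := by omega
        simp only [h, h', if_true]
        exact hq s hs1 h
      · have h1 : s = m + 1 := by omega
        subst h1
        simp only [Nat.add_sub_cancel, le_refl, if_true, h, if_false, hZ]
        exact hS
    · intro v hv hv0
      simp only [Nat.zero_le, if_true] at hv0
      rw [hsum]
      by_cases h : v ∈ Y
      · simp only [h, if_true]
        have h1 := hc v h hv0
        omega
      · simp only [h, if_false]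
        have h1 := hc1 v
        omega
    · intro u hu hu0 v hv hv0 huv hA
      simp only [Nat.zero_le, if_true] at hu0 hv0
      by_cases h : u ∈ Y
      · by_cases h' : v ∈ Y
        · simp only [h, h', if_true]
          exact hc' u h hu0 v h' hv0 huv hA
        · simp only [h, h', if_true, if_false]
          have h1 := hc u h hu0
          omega
      · by_cases h' : v ∈ Y
        · simp only [h, h', if_true, if_false]
          have h1 := hc v h' hv0
          omega
        · simp only [h, h', if_false]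
          have h1 := hc2 u (mem_sdiff.2 ⟨hu, h⟩) v (mem_sdiff.2 ⟨hv, h'⟩) huv hA
          omega

theorem chainE {V : Type} [Fintype V] (A : V → V → Prop) (m : ℕ) (N H : ℕ → ℕ)
    (hcol : ¬ (SimpleGraph.fromRel A).Colorable (∑ s ∈ Icc 1 m, cst (N s) (H s))) :
    ∃ (X : ℕ → Finset V) (q : ℕ → V → ℕ), (X 0).Nonempty ∧
      ∀ s, 1 ≤ s → s ≤ m → Stg A (N s) (H s) (X s) (X (s - 1)) (q s) := by
  obtain ⟨Z, q, c, _, hq, hc, hc'⟩ := chainE_aux A N H m univ
  refine ⟨Z, q, ?_, hq⟩
  rw [Finset.nonempty_iff_ne_empty]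
  intro h0
  apply hcol
  have hn : ∀ v, v ∉ Z 0 := by
    intro v
    rw [h0]
    exact notMem_empty v
  refine ⟨SimpleGraph.Coloring.mk (fun v => ⟨c v, hc v (mem_univ v) (hn v)⟩) ?_⟩
  intro u v huv h
  have h1 : c u = c v := congrArg Fin.val h
  rw [SimpleGraph.fromRel_adj] at huv
  rcases huv.2 with h2 | h2
  · exact hc' u (mem_univ u) (hn u) v (mem_univ v) (hn v) huv.1 h2 h1
  · exact hc' v (mem_univ v) (hn v) u (mem_univ u) (hn u) (Ne.symm huv.1) h2 h1.symm

end Pool.KLS
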