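import Pool.Agent.KLS.SecWA
import Pool.Agent.AAT.Lim
import Pool.Agent.AAT.CardF

/-!
# KLS-SecWB: the variance of weighted fringe sums is o(n^2)
-/

set_option autoImplicit false

namespace Pool.KLS

open Finset Pool.AAT
open scoped Classical

/-- the normalised difference for the pair `m, m'` -/
private noncomputable def gg (m m' n : ℕ) : ℝ :=
  |(n : ℝ) ^ (m + m' - 2) * ((n - (m + m') : ℕ) : ℝ) ^ (n - (m + m')) / (n : ℝ) ^ (n - 2) -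
    ((n : ℝ) ^ (m - 1) * ((n - m : ℕ) : ℝ) ^ (n - m - 1) / (n : ℝ) ^ (n - 2)) *
    ((n : ℝ) ^ (m' - 1) * ((n - m' : ℕ) : ℝ) ^ (n - m' - 1) / (n : ℝ) ^ (n - 2))|

private theorem gg_lim (m m' : ℕ) (hm : 1 ≤ m) (hm' : 1 ≤ m') :
    Filter.Tendsto (fun n => gg m m' n) Filter.atTop (nhds 0) := by
  have h := ((lim2 (m + m') (by omega)).sub ((lim1 m hm).mul (lim1 m' hm'))).abs
  have e : |Real.exp (-((m + m' : ℕ) : ℝ)) - Real.exp (-(m : ℝ)) * Real.exp (-(m' : ℝ))| = 0 := by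
    rw [← Real.exp_add, abs_eq_zero, sub_eq_zero]
    congr 1
    push_cast
    ring
  rw [e] at h
  exact h

private theorem alg_aux (x N A B C : ℝ) (hx : 0 < x) (hN : 0 < N) (a b : ℕ) :
    x ^ (a + 1 + (b + 1)) * |N * A - B * C| =
      x ^ 2 * N ^ 2 * |x ^ (a + b) * A / N - (x ^ a * B / N) * (x ^ b * C / N)| := by
  have h1 : x ^ (a + 1 + (b + 1)) * |N * A - B * C| = |x ^ (a + 1 + (b + 1)) * (N * A - B * C)| := by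
    rw [abs_mul, abs_of_pos (by positivity : 0 < x ^ (a + 1 + (b + 1)))]
  have h2 : x ^ 2 * N ^ 2 * |x ^ (a + b) * A / N - (x ^ a * B / N) * (x ^ b * C / N)| =
      |x ^ 2 * N ^ 2 * (x ^ (a + b) * A / N - (x ^ a * B / N) * (x ^ b * C / N))| := by
    rw [abs_mul, abs_of_pos (by positivity : 0 < x ^ 2 * N ^ 2)]
  rw [h1, h2]
  congr 1
  field_simp
  ring

private theorem gg_eq (m m' n : ℕ) (hm : 1 ≤ m) (hm' : 1 ≤ m') (hn : 1 ≤ n) :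
    (n : ℝ) ^ (m + m') * |(n : ℝ) ^ (n - 2) * ((n - (m + m') : ℕ) : ℝ) ^ (n - (m + m')) -
      ((n - m : ℕ) : ℝ) ^ (n - m - 1) * ((n - m' : ℕ) : ℝ) ^ (n - m' - 1)| =
      (n : ℝ) ^ 2 * ((n : ℝ) ^ (n - 2)) ^ 2 * gg m m' n := by
  obtain ⟨a, rfl⟩ : ∃ a, m = a + 1 := ⟨m - 1, by omega⟩
  obtain ⟨b, rfl⟩ : ∃ b, m' = b + 1 := ⟨m' - 1, by omega⟩
  have hn0 : (0 : ℝ) < n := by exact_mod_cast hn
  have hN : (0 : ℝ) < (n : ℝ) ^ (n - 2) := by positivity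
  have e1 : a + 1 + (b + 1) - 2 = a + b := by omega
  have h := alg_aux (n : ℝ) ((n : ℝ) ^ (n - 2)) (((n - (a + 1 + (b + 1)) : ℕ) : ℝ) ^ (n - (a + 1 + (b + 1))))
    (((n - (a + 1) : ℕ) : ℝ) ^ (n - (a + 1) - 1)) (((n - (b + 1) : ℕ) : ℝ) ^ (n - (b + 1) - 1)) hn0 hN a b
  rw [h]
  unfold gg
  rw [e1, Nat.add_sub_cancel a 1, Nat.add_sub_cancel b 1]

private noncomputable def hh (m0 n : ℕ) : ℝ :=
  (∑ m ∈ Icc 1 m0, ∑ m' ∈ Icc 1 m0, ((m0 : ℝ) ^ (m0 + 2)) ^ 2 * gg m m' n) + 2 * (m0 : ℝ) ^ 3 * (1 / (n : ℝ))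

private theorem hh_lim (m0 : ℕ) : Filter.Tendsto (fun n => hh m0 n) Filter.atTop (nhds 0) := by
  have h1 : Filter.Tendsto (fun n : ℕ => ∑ m ∈ Icc 1 m0, ∑ m' ∈ Icc 1 m0, ((m0 : ℝ) ^ (m0 + 2)) ^ 2 * gg m m' n)
      Filter.atTop (nhds (∑ m ∈ Icc 1 m0, ∑ m' ∈ Icc 1 m0, ((m0 : ℝ) ^ (m0 + 2)) ^ 2 * 0)) := by
    refine tendsto_finsetSum _ fun m hm => tendsto_finsetSum _ fun m' hm' => ?_
    exact (gg_lim m m' (Finset.mem_Icc.1 hm).1 (Finset.mem_Icc.1 hm').1).const_mul _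
  have h2 : Filter.Tendsto (fun n : ℕ => 2 * (m0 : ℝ) ^ 3 * (1 / (n : ℝ))) Filter.atTop
      (nhds (2 * (m0 : ℝ) ^ 3 * 0)) := tendsto_one_div_atTop_nhds_zero_nat.const_mul _
  have h3 := h1.add h2
  simp only [mul_zero, Finset.sum_const_zero, add_zero] at h3
  exact h3

private theorem hh_eq (m0 n : ℕ) (hn : 1 ≤ n) :
    (∑ m ∈ Icc 1 m0, ∑ m' ∈ Icc 1 m0, ((m0 : ℝ) ^ (m0 + 2)) ^ 2 * (n : ℝ) ^ (m + m') *
          |(n : ℝ) ^ (n - 2) * ((n - (m + m') : ℕ) : ℝ) ^ (n - (m + m')) -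
            ((n - m : ℕ) : ℝ) ^ (n - m - 1) * ((n - m' : ℕ) : ℝ) ^ (n - m' - 1)|) +
        2 * (m0 : ℝ) ^ 3 * n * ((n : ℝ) ^ (n - 2)) ^ 2 =
      (n : ℝ) ^ 2 * ((n : ℝ) ^ (n - 2)) ^ 2 * hh m0 n := by
  have hn0 : (n : ℝ) ≠ 0 := by
    have : (0 : ℝ) < n := by exact_mod_cast hn
    exact this.ne'
  have e1 : (∑ m ∈ Icc 1 m0, ∑ m' ∈ Icc 1 m0, ((m0 : ℝ) ^ (m0 + 2)) ^ 2 * (n : ℝ) ^ (m + m') *
          |(n : ℝ) ^ (n - 2) * ((n - (m + m') : ℕ) : ℝ) ^ (n - (m + m')) -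
            ((n - m : ℕ) : ℝ) ^ (n - m - 1) * ((n - m' : ℕ) : ℝ) ^ (n - m' - 1)|) =
      (n : ℝ) ^ 2 * ((n : ℝ) ^ (n - 2)) ^ 2 *
        ∑ m ∈ Icc 1 m0, ∑ m' ∈ Icc 1 m0, ((m0 : ℝ) ^ (m0 + 2)) ^ 2 * gg m m' n := by
    rw [Finset.mul_sum]
    refine Finset.sum_congr rfl fun m hm => ?_
    rw [Finset.mul_sum]
    refine Finset.sum_congr rfl fun m' hm' => ?_
    rw [mul_assoc, gg_eq m m' n (Finset.mem_Icc.1 hm).1 (Finset.mem_Icc.1 hm').1 hn]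
    ring
  have e2 : 2 * (m0 : ℝ) ^ 3 * n * ((n : ℝ) ^ (n - 2)) ^ 2 =
      (n : ℝ) ^ 2 * ((n : ℝ) ^ (n - 2)) ^ 2 * (2 * (m0 : ℝ) ^ 3 * (1 / (n : ℝ))) := by
    generalize ((n : ℝ) ^ (n - 2)) ^ 2 = Z
    field_simp
  rw [e1, e2, hh, ← mul_add]

private theorem card_real (n : ℕ) (hn : 2 ≤ n) (r : Fin n) :
    ((Forest univ {r} : Finset (Fin n → Fin n)).card : ℝ) = (n : ℝ) ^ (n - 2) := by
  have h := card_forest (univ : Finset (Fin n)) {r} (Finset.subset_univ _)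
  rw [Finset.card_univ, Fintype.card_fin, Finset.card_singleton, one_mul] at h
  have h2 : (Forest univ {r} : Finset (Fin n → Fin n)).card = n ^ (n - 2) := by
    have e : n ^ (n - 1) = n ^ (n - 2) * n := by
      rw [← pow_succ]
      congr 1
      omega
    rw [e] at h
    exact Nat.eq_of_mul_eq_mul_right (by omega) h
  rw [h2]
  push_cast
  rfl

theorem secWB (f : ℕ → ℝ) (hf0 : ∀ m, 0 ≤ f m) (hf : ∀ m, f m ≤ m) (m0 : ℕ) (ε : ℝ)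
    (hε : 0 < ε) : ∃ n0 : ℕ, ∀ n : ℕ, n0 ≤ n → ∀ r : Fin n,
    ((Forest univ {r} : Finset (Fin n → Fin n)).card : ℝ) *
        (∑ p ∈ Forest univ {r},
          (∑ v ∈ (univ.erase r).filter (fun v => (fr p v).card ≤ m0), f (fr p v).card) ^ 2) ≤
      (∑ p ∈ Forest univ {r},
          ∑ v ∈ (univ.erase r).filter (fun v => (fr p v).card ≤ m0), f (fr p v).card) ^ 2 +
      ε * (n : ℝ) ^ 2 * ((Forest univ {r} : Finset (Fin n → Fin n)).card : ℝ) ^ 2 := by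
  have h0 := (hh_lim m0).eventually (gt_mem_nhds hε)
  obtain ⟨n1, hn1⟩ := Filter.eventually_atTop.1 h0
  refine ⟨max n1 2, fun n hn r => ?_⟩
  have hn2 : 2 ≤ n := (le_max_right _ _).trans hn
  have hlt : hh m0 n < ε := hn1 n ((le_max_left _ _).trans hn)
  refine (secWA f hf0 hf n r m0).trans ?_
  rw [hh_eq m0 n (by omega), card_real n hn2 r]
  refine add_le_add le_rfl ?_
  have hpos : 0 ≤ (n : ℝ) ^ 2 * ((n : ℝ) ^ (n - 2)) ^ 2 := by positivity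
  have h5 := mul_le_mul_of_nonneg_left hlt.le hpos
  calc (n : ℝ) ^ 2 * ((n : ℝ) ^ (n - 2)) ^ 2 * hh m0 n
      ≤ (n : ℝ) ^ 2 * ((n : ℝ) ^ (n - 2)) ^ 2 * ε := h5
    _ = ε * (n : ℝ) ^ 2 * ((n : ℝ) ^ (n - 2)) ^ 2 := by ring

end Pool.KLS
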