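import Pool.Agent.KLT.E
import Pool.Agent.KLT.C
import Pool.Agent.KLT.V
import Pool.Agent.AAT.Defs
import Pool.Agent.AAT.RTD

/-!
# KLS: stages of the equilibrium method. Definitions

Project MP_35582f_co, second part: every orientation of a rooted tree with heights `h(v)` is
contained in every digraph of chromatic number `216 ∑ ⌊log₂ (h(v) + 2)⌋`; linear for all
orientations of almost all trees. `Pool.KLT` (all oriented trees, complete) is the pattern.
A stage has two parameters: `N` (number of used vertices) and `H` (depth of the hanging trees);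
the scales are `base N H, ..., top N`.
-/

set_option autoImplicit false

namespace Pool.KLS

open Finset Pool.KLT
open scoped Classical

/-- The lowest scale: `4 ^ base * H ≤ N`. -/
def base (N H : ℕ) : ℕ := Nat.log 4 (N / H)

/-- The highest scale: `N ≤ 4 ^ top`. -/
def top (N : ℕ) : ℕ := Nat.clog 4 N

/-- The position from which everything can be embedded (vertices at positions larger than this). -/
def pos (N H : ℕ) : ℕ := 16 * N + 2 * 4 ^ base N H * H

/-- The number of colours for the vertices of position at most `pos N H`. -/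
def cst (N H : ℕ) : ℕ :=
  2 * ∑ s ∈ range (top N - base N H + 1),
    ((pos N H + 1 + (2 * 4 ^ (base N H + s) - 1) - 1) / (2 * 4 ^ (base N H + s) - 1)) *
      (2 * 4 ^ (base N H + s) - 1)

/-- One stage: inside `X` the vertices of positive position are good at all scales, those in `Y`
have high position. -/
structure Stg {V : Type} [Fintype V] (A : V → V → Prop) (N H : ℕ) (X Y : Finset V) (q : V → ℕ) :
    Prop where
  sub : Y ⊆ X
  high : ∀ v ∈ Y, pos N H < q v
  good : ∀ v ∈ X, 0 < q v → ∀ s, base N H ≤ s → s ≤ top N →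
    4 ^ s ≤ #(X.filter (fun w => A v w ∧ q w ≤ q v + 2 * 4 ^ s ∧ q v ≤ q w + 2 * 4 ^ s)) ∧
    4 ^ s ≤ #(X.filter (fun w => A w v ∧ q w ≤ q v + 2 * 4 ^ s ∧ q v ≤ q w + 2 * 4 ^ s))

/-- A step of a chain: at most `2 * 4 ^ b` down, or further down if there are many used vertices
near by. -/
def StB {V : Type} (b : ℕ) (U : Finset V) (q : V → ℕ) (x y : V) : Prop :=
  x ∈ U ∧ y ∈ U ∧ (q x ≤ q y + 2 * 4 ^ b ∨
    ∃ t : ℕ, q x ≤ q y + 2 * 4 ^ (t + 1) ∧ 4 ^ t ≤ near U q x (2 * 4 ^ t))

/-- Chains of a given length. -/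
def Ch {V : Type} (b : ℕ) (U : Finset V) (q : V → ℕ) : ℕ → V → V → Prop
  | 0, x, y => x = y ∧ x ∈ U
  | L + 1, x, z => ∃ y, Ch b U q L x y ∧ StB b U q y z

/-- A rooted oriented tree with stages: `p` the parent function, `d` a rank, `st` the stages (`0`
only for the root), `dd i` the number of steps from `i` up to a vertex of smaller stage, `H s` a
bound for `dd` in stage `s`. -/
structure RTK (n : ℕ) (T : Digraph (Fin n)) (root : Fin n) (p : Fin n → Fin n) (d : Fin n → ℕ)
    (m : ℕ) (st dd : Fin n → ℕ) (H : ℕ → ℕ) : Prop where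
  rank : ∀ i, i ≠ root → d (p i) < d i
  cov : ∀ x y, T.Adj x y → ∃ i, i ≠ root ∧ ((i = x ∧ p i = y) ∨ (i = y ∧ p i = x))
  st0 : st root = 0
  st1 : ∀ i, i ≠ root → 1 ≤ st i ∧ st i ≤ m
  stm : ∀ i, i ≠ root → st (p i) ≤ st i
  dd1 : ∀ i, i ≠ root → st (p i) < st i → dd i = 1
  dd2 : ∀ i, i ≠ root → st (p i) = st i → dd i = dd (p i) + 1
  ddH : ∀ i, i ≠ root → dd i ≤ H (st i)

/-- The level of a vertex of height `h`. -/
def lev (h : ℕ) : ℕ := Nat.log 2 (Nat.log 2 (h + 2))

end Pool.KLS
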