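import Pool.Agent.KLS.EmbedK
import Pool.Agent.KLS.ChainE

/-!
# KLS-UnavK: the chain theorem
PLAN. `Unavoidable`: let `D` have chromatic number `≥ c`; if the graph had a colouring with
`∑ cst ≤ c - 1 < c` colours, contradiction (`SimpleGraph.Colorable.chromaticNumber_le`). So `chainE`
and `embedK` apply with `N s = cnt st s`.
-/

set_option autoImplicit false

namespace Pool.KLS

open Finset Pool.KLT
open scoped Classical

theorem unavK (n : ℕ) (T : Digraph (Fin n)) (hasym : ∀ a b : Fin n, T.Adj a b → ¬ T.Adj b a)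
    (root : Fin n) (p : Fin n → Fin n) (d : Fin n → ℕ) (m : ℕ) (st dd : Fin n → ℕ) (H : ℕ → ℕ)
    (hT : RTK n T root p d m st dd H) (c : ℕ)
    (hc : ∑ s ∈ Icc 1 m, cst (Pool.AAT.cnt st s) (H s) + 1 ≤ c) :
    Pool.AAT.Unavoidable n T c := by
  intro V _ D hD
  have hcol : ¬ (SimpleGraph.fromRel D.Adj).Colorable
      (∑ s ∈ Icc 1 m, cst (Pool.AAT.cnt st s) (H s)) := by
    intro h
    have h2 := le_trans hD h.chromaticNumber_le
    have h3 : c ≤ ∑ s ∈ Icc 1 m, cst (Pool.AAT.cnt st s) (H s) := by exact_mod_cast h2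
    omega
  obtain ⟨X, q, h0, hS⟩ := chainE D.Adj m (fun s => Pool.AAT.cnt st s) H hcol
  exact embedK D.Adj n T hasym root p d m st dd H (fun s => Pool.AAT.cnt st s) hT
    (fun s => le_rfl) X q h0 hS

end Pool.KLS
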