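import Pool.Agent.KLS.SumK
import Pool.Agent.KLS.UnavK
import Pool.Agent.AAT.TreeA
import Pool.Agent.AAT.TreeC
import Pool.Agent.AAH.HDefs
import Pool.Agent.AAH.DistH

/-!
# KLS-DetK: the deterministic theorem
PLAN. `unavL`: `unavK` with `rtkL` and `sumK` (`treeOf_otree` gives that `treeOf r p e` has no
2-cycles). `detK`: as `Pool.AAT.detG` in AAH/Det (copy it): `otree_exists`, `fromRel_treeOf`, `ghgt_eq`.
-/

set_option autoImplicit false

namespace Pool.KLS

open Finset Pool.KLT Pool.AAT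
open scoped Classical

theorem unavL {n : ℕ} (r : Fin n) (p : Fin n → Fin n) (hp : p ∈ Forest univ {r})
    (e : Fin n → Bool) :
    Unavoidable n (treeOf r p e) (216 * ∑ i : Fin n, Nat.log 2 (hgt p i + 2)) := by
  obtain ⟨dd, h⟩ := rtkL r p hp e
  exact unavK n (treeOf r p e) (treeOf_otree r p hp e).1 r p (dep p r) (lev (hgt p r) + 1) (stL r p) dd _ h _
    (sumK r p hp)

theorem detK (n : ℕ) (G : SimpleGraph (Fin n)) (hG : G.IsTree) (r : Fin n) (c : ℕ)
    (hc : 216 * ∑ v : Fin n, Nat.log 2 (ghgt G r v + 2) ≤ c) : AllOr n G c := by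
  intro T hT hTG
  have hO : OTree n T := ⟨hT, by rw [hTG]; exact hG⟩
  obtain ⟨p, hp, e, rfl⟩ := otree_exists r T hO
  rw [fromRel_treeOf r p e] at hTG
  subst hTG
  have h1 : ∑ v : Fin n, Nat.log 2 (ghgt (SimpleGraph.fromRel (fun a b : Fin n => a ≠ r ∧ p a = b)) r v + 2) =
      ∑ v : Fin n, Nat.log 2 (hgt p v + 2) :=
    Finset.sum_congr rfl fun v _ => by rw [ghgt_eq r p hp v]
  rw [h1] at hc
  intro V _ D hD
  refine unavL r p hp e V D (le_trans ?_ hD)
  exact_mod_cast hc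

end Pool.KLS
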