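import Pool.Agent.KLS.Defs

/-!
# KLS-DispB: the displacement along a chain of length `L`
-/

set_option autoImplicit false

namespace Pool.KLS

open Finset Pool.KLT
open scoped Classical

private theorem db_cross {V : Type} (b : ℕ) (U : Finset V) (q : V → ℕ) (L : ℕ) (x0 y : V)
    (h : Ch b U q L x0 y) : ∃ B : Finset ℕ, #B ≤ 2 * 4 ^ b * L ∧ ∀ z, q y ≤ z → z < q x0 → z ∈ B ∨
      ∃ x t, x ∈ U ∧ z < q x ∧ q x ≤ z + 2 * 4 ^ (t + 1) ∧ 4 ^ t ≤ near U q x (2 * 4 ^ t) := by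
  induction L generalizing y with
  | zero =>
    obtain ⟨h1, _⟩ := h
    refine ⟨∅, by simp, fun z hz1 hz2 => ?_⟩
    rw [h1] at hz2
    omega
  | succ L ih =>
    obtain ⟨w, hw, hwU, hyU, hst⟩ := h
    obtain ⟨B, hB, hBz⟩ := ih w hw
    rcases hst with hst | ⟨t, ht1, ht2⟩
    · refine ⟨B ∪ Ico (q y) (q w), ?_, fun z hz1 hz2 => ?_⟩
      · refine (card_union_le _ _).trans ?_
        rw [Nat.card_Ico, Nat.mul_succ]
        omega
      · by_cases hz : q w ≤ z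
        · rcases hBz z hz hz2 with h1 | h1
          · exact Or.inl (mem_union_left _ h1)
          · exact Or.inr h1
        · exact Or.inl (mem_union_right _ (mem_Ico.2 ⟨hz1, by omega⟩))
    · refine ⟨B, ?_, fun z hz1 hz2 => ?_⟩
      · refine hB.trans ?_
        rw [Nat.mul_succ]
        omega
      · by_cases hz : q w ≤ z
        · exact hBz z hz hz2
        · exact Or.inr ⟨w, t, hwU, by omega, by omega, ht2⟩

private theorem db_win {V : Type} (U : Finset V) (q : V → ℕ) (x : V) (t : ℕ)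
    (hs : 4 ^ t ≤ near U q x (2 * 4 ^ t)) :
    4 ^ t ≤ #(U.filter (fun u => |(q u : ℤ) - (q x : ℤ)| ≤ ((2 * 4 ^ t : ℕ) : ℤ))) := by
  refine hs.trans ?_
  unfold near
  refine Finset.card_le_card fun w hw => ?_
  rw [Finset.mem_filter] at hw ⊢
  obtain ⟨h1, h2, h3⟩ := hw
  refine ⟨h1, ?_⟩
  have h2' : (q w : ℤ) ≤ q x + ((2 * 4 ^ t : ℕ) : ℤ) := by exact_mod_cast h2
  have h3' : (q x : ℤ) ≤ q w + ((2 * 4 ^ t : ℕ) : ℤ) := by exact_mod_cast h3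
  rw [abs_le]
  constructor
  · linarith
  · linarith

private theorem db_vit {V : Type} (U : Finset V) (q : V → ℕ) (I : Finset ℕ)
    (hI : ∀ z ∈ I, ∃ x t, x ∈ U ∧ z < q x ∧ q x ≤ z + 2 * 4 ^ (t + 1) ∧
      4 ^ t ≤ near U q x (2 * 4 ^ t)) : #I ≤ 16 * #U := by
  rcases I.eq_empty_or_nonempty with h0 | ⟨z0, hz0⟩
  · rw [h0]
    simp
  obtain ⟨x0, -⟩ := hI z0 hz0
  have hex : ∀ z : ℕ, ∃ x t, z ∈ I → x ∈ U ∧ z < q x ∧ q x ≤ z + 2 * 4 ^ (t + 1) ∧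
      4 ^ t ≤ near U q x (2 * 4 ^ t) := by
    intro z
    by_cases hz : z ∈ I
    · obtain ⟨x, s, hxs⟩ := hI z hz
      exact ⟨x, s, fun _ => hxs⟩
    · exact ⟨x0, 0, fun hz' => absurd hz' hz⟩
  choose X S hXS using hex
  obtain ⟨ρ, hρ⟩ : ∃ ρ : ℕ → ℕ, ρ = fun t => 2 * 4 ^ t := ⟨_, rfl⟩
  have hρ' : ∀ t, ρ t = 2 * 4 ^ t := fun t => by rw [hρ]
  obtain ⟨F, hF⟩ : ∃ F : Finset (ℤ × ℕ), F = I.image (fun z => ((q (X z) : ℤ), S z)) := ⟨_, rfl⟩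
  obtain ⟨C, hCF, hC1, hC2⟩ := vitali ρ F
  obtain ⟨W, hW⟩ : ∃ W : ℤ × ℕ → Finset V, W = fun b => U.filter (fun u => |(q u : ℤ) - b.1| ≤ (ρ b.2 : ℤ)) :=
    ⟨_, rfl⟩
  have hWc : ∀ b ∈ C, 4 ^ b.2 ≤ #(W b) := by
    intro b hb
    have hb' := hCF hb
    rw [hF, Finset.mem_image] at hb'
    obtain ⟨z, hz, rfl⟩ := hb'
    obtain ⟨h1, _, _, h4⟩ := hXS z hz
    rw [hW, hρ]
    exact db_win U q (X z) (S z) h4
  have hWd : ∀ a ∈ C, ∀ b ∈ C, a ≠ b → Disjoint (W a) (W b) := by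
    intro a ha b hb hab
    rw [Finset.disjoint_left]
    intro u hu hu'
    rw [hW, Finset.mem_filter] at hu hu'
    have h1 := hC1 a ha b hb hab
    have h2 : |a.1 - b.1| ≤ |(q u : ℤ) - a.1| + |(q u : ℤ) - b.1| := by
      have h3 : a.1 - b.1 = ((q u : ℤ) - b.1) - ((q u : ℤ) - a.1) := by ring
      rw [h3]
      refine (abs_sub _ _).trans (le_of_eq ?_)
      ring
    have h4 := hu.2
    have h5 := hu'.2
    linarith
  have hsum : ∑ b ∈ C, 4 ^ b.2 ≤ #U := by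
    calc ∑ b ∈ C, 4 ^ b.2 ≤ ∑ b ∈ C, #(W b) := Finset.sum_le_sum hWc
      _ = #(C.biUnion W) := (Finset.card_biUnion hWd).symm
      _ ≤ #U := by
        refine Finset.card_le_card fun u hu => ?_
        obtain ⟨b, _, hb⟩ := Finset.mem_biUnion.mp hu
        rw [hW] at hb
        exact (Finset.mem_filter.mp hb).1
  obtain ⟨J, hJ⟩ : ∃ J : ℤ × ℕ → Finset ℕ, J = fun b : ℤ × ℕ => I.filter (fun z : ℕ =>
      b.1 - 2 * ρ b.2 - 2 * 4 ^ (b.2 + 1) ≤ (z : ℤ) ∧ (z : ℤ) < b.1 + 2 * ρ b.2) := ⟨_, rfl⟩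
  have hcov : I ⊆ C.biUnion J := by
    intro z hz
    obtain ⟨_, h2, h3, _⟩ := hXS z hz
    have hzF : ((q (X z) : ℤ), S z) ∈ F := by
      rw [hF]
      exact Finset.mem_image.mpr ⟨z, hz, rfl⟩
    obtain ⟨b, hb, h4, h5⟩ := hC2 _ hzF
    refine Finset.mem_biUnion.mpr ⟨b, hb, ?_⟩
    rw [hJ, Finset.mem_filter]
    refine ⟨hz, ?_⟩
    have h4' : S z ≤ b.2 := h4
    have h5' : |(q (X z) : ℤ) - b.1| ≤ (ρ (S z) : ℤ) + ρ b.2 := h5
    have h6 : (ρ (S z) : ℤ) ≤ ρ b.2 := by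
      have h10 : ρ (S z) ≤ ρ b.2 := by
        rw [hρ', hρ']
        exact Nat.mul_le_mul_left 2 (Nat.pow_le_pow_right (by norm_num) h4')
      exact_mod_cast h10
    have h7 : (4 : ℤ) ^ (S z + 1) ≤ 4 ^ (b.2 + 1) := pow_le_pow_right₀ (by norm_num) (by omega)
    have h8 : (q (X z) : ℤ) ≤ z + 2 * 4 ^ (S z + 1) := by exact_mod_cast h3
    have h9 : (z : ℤ) < q (X z) := by exact_mod_cast h2
    rw [abs_le] at h5'
    constructor
    · linarith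
    · linarith
  have hJc : ∀ b ∈ C, #(J b) ≤ 16 * 4 ^ b.2 := by
    intro b _
    have h1 : #(J b) ≤ #(Finset.Ico (b.1 - 2 * ρ b.2 - 2 * 4 ^ (b.2 + 1)) (b.1 + 2 * (ρ b.2 : ℤ))) := by
      refine Finset.card_le_card_of_injOn (fun z : ℕ => (z : ℤ)) ?_ ?_
      · intro z hz
        have hz' := Finset.mem_coe.mp hz
        rw [hJ, Finset.mem_filter] at hz'
        exact Finset.mem_coe.mpr (Finset.mem_Ico.mpr hz'.2)
      · intro z _ w _ hzw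
        have hzw' : (z : ℤ) = (w : ℤ) := hzw
        omega
    rw [Int.card_Ico] at h1
    have h2 : (b.1 + 2 * (ρ b.2 : ℤ) - (b.1 - 2 * ρ b.2 - 2 * 4 ^ (b.2 + 1))).toNat = 16 * 4 ^ b.2 := by
      have h3 : b.1 + 2 * (ρ b.2 : ℤ) - (b.1 - 2 * ρ b.2 - 2 * 4 ^ (b.2 + 1)) =
          ((16 * 4 ^ b.2 : ℕ) : ℤ) := by
        rw [hρ']
        push_cast
        ring
      rw [h3, Int.toNat_natCast]
    rw [h2] at h1
    exact h1
  calc #I ≤ #(C.biUnion J) := Finset.card_le_card hcov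
    _ ≤ ∑ b ∈ C, #(J b) := Finset.card_biUnion_le
    _ ≤ ∑ b ∈ C, 16 * 4 ^ b.2 := Finset.sum_le_sum hJc
    _ = 16 * ∑ b ∈ C, 4 ^ b.2 := by rw [Finset.mul_sum]
    _ ≤ 16 * #U := Nat.mul_le_mul_left 16 hsum

theorem dispB {V : Type} (b : ℕ) (U : Finset V) (q : V → ℕ) (L : ℕ) (x0 y : V)
    (h : Ch b U q L x0 y) : q x0 ≤ q y + 16 * #U + 2 * 4 ^ b * L := by
  obtain ⟨B, hB, hBz⟩ := db_cross b U q L x0 y h
  have h1 : #((Ico (q y) (q x0)) \ B) ≤ 16 * #U := by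
    refine db_vit U q _ fun z hz => ?_
    rw [mem_sdiff, mem_Ico] at hz
    rcases hBz z hz.1.1 hz.1.2 with h2 | h2
    · exact absurd h2 hz.2
    · exact h2
  have h2 : #(Ico (q y) (q x0)) ≤ #((Ico (q y) (q x0)) \ B) + #B := by
    have h3 := Finset.le_card_sdiff B (Ico (q y) (q x0))
    omega
  rw [Nat.card_Ico] at h2
  omega

end Pool.KLS
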