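import Pool.Agent.KLS.Defs

/-!
# KLS-Greedy2: greedy embedding with an invariant that depends on the tree vertex
-/

set_option autoImplicit false

namespace Pool.KLS

open Finset
open scoped Classical

theorem greedyJ {V W : Type} [Fintype W] (root : W) (par : W → W) (d : W → ℕ)
    (hd : ∀ i, i ≠ root → d (par i) < d i) (Q : W → V → V → Prop)
    (Inv : W → Finset V → V → Prop)
    (mono : ∀ i U U' v, U ⊆ U' → Inv i U v → Inv i U' v)
    (v0 : V) (h0 : Inv root {v0} v0)
    (step : ∀ U i v, i ≠ root → v ∈ U → Inv (par i) U v →
      #U ≤ #(univ.filter (fun j : W => j ≠ i ∧ d j ≤ d i)) →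
      ∃ w, w ∉ U ∧ Q i v w ∧ Inv i (insert w U) w) :
    ∃ φ : W → V, Function.Injective φ ∧ ∀ i, i ≠ root → Q i (φ (par i)) (φ i) := by
  have hroot0 : ∀ j, d root ≤ d j := by
    have key0 : ∀ m : ℕ, ∀ j, d j = m → d root ≤ m := by
      intro m
      induction m using Nat.strong_induction_on with
      | _ m ih =>
        intro j hj
        by_cases hjr : j = root
        · rw [← hj, hjr]
        · have h1 := hd j hjr
          have h2 := ih (d (par j)) (by omega) (par j) rfl
          omega
    exact fun j => key0 (d j) j rfl
  have key : ∀ m : ℕ, 1 ≤ m → m ≤ Fintype.card W → ∃ (S : Finset W) (φ : W → V),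
      root ∈ S ∧ (∀ i ∈ S, ∀ j, d j < d i → j ∈ S) ∧ #S = m ∧ Set.InjOn φ (S : Set W) ∧
      (∀ i ∈ S, i ≠ root → Q i (φ (par i)) (φ i)) ∧ ∀ i ∈ S, Inv i (S.image φ) (φ i) := by
    intro m hm
    induction m, hm using Nat.le_induction with
    | base =>
      intro _
      refine ⟨{root}, fun _ => v0, mem_singleton_self _, ?_, card_singleton _, ?_, ?_, ?_⟩
      · intro i hi j hj
        rw [mem_singleton.1 hi] at hj
        exact absurd (hroot0 j) (not_le.2 hj)
      · intro a ha b hb _
        rw [coe_singleton, Set.mem_singleton_iff] at ha hb
        rw [ha, hb]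
      · intro i hi hne
        exact absurd (mem_singleton.1 hi) hne
      · intro i hi
        rw [image_singleton, mem_singleton.1 hi]
        exact h0
    | succ m hm ih =>
      intro hlt
      obtain ⟨S, φ, hroot, hcl, hcard, hinj, hQ, hI⟩ := ih (by omega)
      have hne : (Sᶜ : Finset W).Nonempty := by
        rw [← card_pos, card_compl]
        omega
      obtain ⟨i, hi, hmin⟩ := exists_min_image Sᶜ d hne
      rw [mem_compl] at hi
      have hir : i ≠ root := by
        rintro rfl
        exact hi hroot
      have hpar : par i ∈ S := by
        by_contra hcon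
        have h1 := hmin (par i) (mem_compl.2 hcon)
        have h2 := hd i hir
        omega
      have hUcard : #(S.image φ) ≤ #(univ.filter (fun j : W => j ≠ i ∧ d j ≤ d i)) := by
        rw [card_image_of_injOn hinj]
        refine card_le_card fun j hj => ?_
        rw [mem_filter]
        refine ⟨mem_univ _, fun h => hi (h ▸ hj), ?_⟩
        by_contra hcon
        exact hi (hcl j hj i (not_le.1 hcon))
      obtain ⟨w, hw1, hw2, hw3⟩ := step (S.image φ) i (φ (par i)) hir (mem_image_of_mem φ hpar)
        (hI (par i) hpar) hUcard
      have hupd : ∀ j ∈ S, Function.update φ i w j = φ j := by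
        intro j hj
        apply Function.update_of_ne
        rintro rfl
        exact hi hj
      have himg : (insert i S).image (Function.update φ i w) = insert w (S.image φ) := by
        rw [image_insert, Function.update_self]
        congr 1
        exact image_congr (fun j hj => hupd j hj)
      refine ⟨insert i S, Function.update φ i w, mem_insert_of_mem hroot, ?_, ?_, ?_, ?_, ?_⟩
      · intro j hj a ha
        rcases mem_insert.1 hj with h | h
        · rw [h] at ha
          by_contra hcon
          have h1 : a ∉ S := fun h2 => hcon (mem_insert_of_mem h2)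
          exact absurd (hmin a (mem_compl.2 h1)) (not_le.2 ha)
        · exact mem_insert_of_mem (hcl j h a ha)
      · rw [card_insert_of_notMem hi, hcard]
      · intro a ha b hb hab
        rw [mem_coe] at ha hb
        have hout : ∀ j ∈ S, Function.update φ i w j ≠ w := by
          intro j hj h
          rw [hupd j hj] at h
          exact hw1 (h ▸ mem_image_of_mem φ hj)
        rcases mem_insert.1 ha with h | h
        · rcases mem_insert.1 hb with h' | h'
          · rw [h, h']
          · rw [h, Function.update_self] at hab
            exact absurd hab.symm (hout b h')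
        · rcases mem_insert.1 hb with h' | h'
          · rw [h', Function.update_self] at hab
            exact absurd hab (hout a h)
          · rw [hupd a h, hupd b h'] at hab
            exact hinj h h' hab
      · intro j hj hjr
        rcases mem_insert.1 hj with h | h
        · rw [h, Function.update_self, hupd _ hpar]
          exact hw2
        · rw [hupd j h, hupd _ (hcl j h (par j) (hd j hjr))]
          exact hQ j h hjr
      · intro j hj
        rw [himg]
        rcases mem_insert.1 hj with h | h
        · rw [h, Function.update_self]
          exact hw3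
        · rw [hupd j h]
          exact mono _ _ _ _ (subset_insert _ _) (hI j h)
  have hcardpos : 1 ≤ Fintype.card W := Fintype.card_pos_iff.2 ⟨root⟩
  obtain ⟨S, φ, _, _, hcard, hinj, hQ, _⟩ := key (Fintype.card W) hcardpos le_rfl
  have hS : S = univ := (card_eq_iff_eq_univ S).1 hcard
  subst hS
  refine ⟨φ, ?_, fun i hi => hQ i (mem_univ i) hi⟩
  rw [coe_univ] at hinj
  exact Set.injOn_univ.1 hinj

end Pool.KLS
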