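import Pool.Agent.KLS.Defs

/-!
# KLS-Mono: monotonicity of chains in the used set
-/

set_option autoImplicit false

namespace Pool.KLS

open Finset Pool.KLT
open scoped Classical

theorem near_mono {V : Type} {U U' : Finset V} (h : U ⊆ U') (q : V → ℕ) (v : V) (ρ : ℕ) :
    near U q v ρ ≤ near U' q v ρ := by
  unfold near
  exact card_le_card (filter_subset_filter _ h)

theorem ch_mono {V : Type} {b : ℕ} {U U' : Finset V} (h : U ⊆ U') (q : V → ℕ) (L : ℕ) (x y : V)
    (hc : Ch b U q L x y) : Ch b U' q L x y := by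
  induction L generalizing y with
  | zero => exact ⟨hc.1, h hc.2⟩
  | succ L ih =>
    obtain ⟨z, hz, h1, h2, h3⟩ := hc
    refine ⟨z, ih z hz, h h1, h h2, ?_⟩
    rcases h3 with h3 | ⟨t, ht, ht'⟩
    · exact Or.inl h3
    · exact Or.inr ⟨t, ht, ht'.trans (near_mono h q z _)⟩

theorem ch_mem {V : Type} {b : ℕ} {U : Finset V} {q : V → ℕ} {L : ℕ} {x y : V}
    (hc : Ch b U q L x y) : x ∈ U ∧ y ∈ U := by
  induction L generalizing y with
  | zero =>
    obtain ⟨h1, h2⟩ := hc
    subst h1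
    exact ⟨h2, h2⟩
  | succ L ih =>
    obtain ⟨z, hz, h1, h2, _⟩ := hc
    exact ⟨(ih hz).1, h2⟩

end Pool.KLS
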