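import Pool.Agent.KLS.DispB
import Pool.Agent.KLS.Mono
import Pool.Agent.KLS.Greedy2

/-!
# KLS-EmbedK: embedding of a staged tree
PLAN. `greedyJ` with the rank `i ↦ st i * (M + 1) + d i` (`M` an upper bound of `d`), so that vertices
of smaller stage come first (see `Pool.AAT.embed` in AAT/Embed), `Q i u z := (T.Adj (p i) i → A u z) ∧
(T.Adj i (p i) → A z u)`, and
`Inv i U v := v ∈ X (st i) ∧ v ∈ U ∧ (i ≠ root → ∃ x0 ∈ U, x0 ∈ X (st i - 1) ∧
Ch (base (N (st i)) (H (st i))) U (q (st i)) (dd i) x0 v)`. `mono`: `ch_mono`.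
STEP for `i`, `s = st i`, parent image `u`. `#U ≤ #{j ≠ i | rank j ≤ rank i} ≤ cnt st s - 1 < N s`
(all such `j` have stage `≤ s`). If `st (p i) < s` take `x0 = u ∈ X (st (p i)) ⊆ X (s-1)` (the `X` are
increasing by `Stg.sub`), `L = 0` (`Ch _ U _ 0 u u`); if `st (p i) = s` then `p i ≠ root` and the
invariant of `p i` gives `x0` and `L = dd (p i)`. In both cases `dd i = L + 1`, `L + 1 ≤ H s`. By `dispB`
and `Stg.high` (`pos < q x0`): `q u ≥ pos + 1 - 16 #U - 2 * 4 ^ b * L > 0`, `u ∈ X s`, so `Stg.good`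
holds for `u`. Let `t ≥ b` be least with `near U (q s) u (2 * 4 ^ t) < 4 ^ t` (`t = top (N s)` is
one if `b ≤ top`: `near ≤ #U < N s ≤ 4 ^ top` (`Nat.le_pow_clog`); `b ≤ top` because
`Nat.log 4 (N/H) ≤ Nat.log 4 N ≤ Nat.clog 4 N`). At most one of `T.Adj (p i) i`, `T.Adj i (p i)` holds;
the corresponding filter of `X s` has at least `4 ^ t` elements, fewer than `4 ^ t` of them in `U`, so
there is `w ∈ X s \ U` at distance at most `2 * 4 ^ t`. The step `StB`: if `t = b` the first
alternative, if `t = t' + 1 > b` then `4 ^ t' ≤ near U (q s) u (2 * 4 ^ t')` by minimality.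
At the end: `T.Adj a b` gives `i` by `cov`, and `Q i`.
-/

set_option autoImplicit false

namespace Pool.KLS

open Finset Pool.KLT
open scoped Classical

private theorem base_le_top (N H : ℕ) : base N H ≤ top N := by
  unfold base top
  exact (Nat.log_mono_right (Nat.div_le_self N H)).trans (Nat.log_le_clog 4 N)

private theorem near_le {V : Type} (U : Finset V) (q : V → ℕ) (v : V) (ρ : ℕ) :
    near U q v ρ ≤ #U := Finset.card_filter_le _ _

/-- Choice of a new neighbour. -/
private theorem pick {V : Type} (B : V → Prop) (q : V → ℕ) (v : V) (U X : Finset V)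
    (ρ m : ℕ) (h1 : near U q v ρ < m)
    (h2 : m ≤ #(X.filter (fun w => B w ∧ q w ≤ q v + ρ ∧ q v ≤ q w + ρ))) :
    ∃ w ∈ X, w ∉ U ∧ B w ∧ q v ≤ q w + ρ := by
  by_contra hcon
  push Not at hcon
  have : #(X.filter (fun w => B w ∧ q w ≤ q v + ρ ∧ q v ≤ q w + ρ)) ≤ near U q v ρ := by
    apply Finset.card_le_card
    intro w hw
    rw [Finset.mem_filter] at hw ⊢
    refine ⟨?_, hw.2.2⟩
    by_contra hU
    exact absurd (hcon w hw.1 hU hw.2.1) (not_lt.mpr hw.2.2.2)
  omega

private theorem step_aux {V : Type} [Fintype V] {A : V → V → Prop} {N H : ℕ} {X Y : Finset V}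
    {q : V → ℕ} (hS : Stg A N H X Y q) {U : Finset V} (hU : #U < N) {L : ℕ} (hL : L + 1 ≤ H)
    {x0 v : V} (hx0 : x0 ∈ Y) (hv : v ∈ X) (hch : Ch (base N H) U q L x0 v) :
    (∃ w ∈ X, w ∉ U ∧ A v w ∧ Ch (base N H) (insert w U) q (L + 1) x0 w) ∧
    (∃ w ∈ X, w ∉ U ∧ A w v ∧ Ch (base N H) (insert w U) q (L + 1) x0 w) := by
  have hvU : v ∈ U := (ch_mem hch).2
  have hdisp := dispB _ U q L x0 v hch
  have hhigh := hS.high x0 hx0
  have hmul : 2 * 4 ^ base N H * L ≤ 2 * 4 ^ base N H * H := Nat.mul_le_mul_left _ (by omega)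
  have hpos : 0 < q v := by
    unfold pos at hhigh
    omega
  have hclog : N ≤ 4 ^ top N := Nat.le_pow_clog (by norm_num) N
  have hex : ∃ t, base N H ≤ t ∧ near U q v (2 * 4 ^ t) < 4 ^ t :=
    ⟨top N, base_le_top N H, lt_of_le_of_lt (near_le U q v _) (lt_of_lt_of_le hU hclog)⟩
  have ht := Nat.find_spec hex
  have htK : Nat.find hex ≤ top N :=
    Nat.find_le ⟨base_le_top N H, lt_of_le_of_lt (near_le U q v _) (lt_of_lt_of_le hU hclog)⟩
  have hg := hS.good v hv hpos (Nat.find hex) ht.1 htK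
  have hstep : ∀ w, w ∉ U → q v ≤ q w + 2 * 4 ^ Nat.find hex →
      Ch (base N H) (insert w U) q (L + 1) x0 w := by
    intro w _ hw
    have hsub : U ⊆ insert w U := Finset.subset_insert w U
    refine ⟨v, ch_mono hsub q L x0 v hch, hsub hvU, Finset.mem_insert_self w U, ?_⟩
    rcases Nat.lt_or_ge (base N H) (Nat.find hex) with hlt | hge
    · right
      have hlt' : Nat.find hex - 1 < Nat.find hex := by omega
      have hmin := Nat.find_min hex hlt'
      have e : Nat.find hex - 1 + 1 = Nat.find hex := by omega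
      refine ⟨Nat.find hex - 1, by rw [e]; exact hw, ?_⟩
      have h1 : 4 ^ (Nat.find hex - 1) ≤ near U q v (2 * 4 ^ (Nat.find hex - 1)) := by
        by_contra hcon
        exact hmin ⟨by omega, not_le.1 hcon⟩
      exact h1.trans (near_mono hsub q v _)
    · left
      have e : Nat.find hex = base N H := le_antisymm hge ht.1
      rw [e] at hw
      exact hw
  constructor
  · obtain ⟨w, hw1, hw2, hw3, hw4⟩ := pick (fun w => A v w) q v U X _ _ ht.2 hg.1
    exact ⟨w, hw1, hw2, hw3, hstep w hw2 hw4⟩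
  · obtain ⟨w, hw1, hw2, hw3, hw4⟩ := pick (fun w => A w v) q v U X _ _ ht.2 hg.2
    exact ⟨w, hw1, hw2, hw3, hstep w hw2 hw4⟩

theorem embedK {V : Type} [Fintype V] (A : V → V → Prop) (n : ℕ) (T : Digraph (Fin n))
    (hasym : ∀ a b : Fin n, T.Adj a b → ¬ T.Adj b a)
    (root : Fin n) (p : Fin n → Fin n) (d : Fin n → ℕ) (m : ℕ) (st dd : Fin n → ℕ) (H N : ℕ → ℕ)
    (hT : RTK n T root p d m st dd H) (hN : ∀ s, Pool.AAT.cnt st s ≤ N s)
    (X : ℕ → Finset V) (q : ℕ → V → ℕ) (h0 : (X 0).Nonempty)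
    (hS : ∀ s, 1 ≤ s → s ≤ m → Stg A (N s) (H s) (X s) (X (s - 1)) (q s)) :
    ∃ f : Fin n → V, Function.Injective f ∧ ∀ a b : Fin n, T.Adj a b → A (f a) (f b) := by
  obtain ⟨M, hM⟩ : ∃ M : ℕ, ∀ i, d i ≤ M := ⟨univ.sup d, fun i => Finset.le_sup (mem_univ i)⟩
  have hmul : ∀ i j, st i ≤ st j → st i * (M + 1) ≤ st j * (M + 1) := fun i j hij =>
    Nat.mul_le_mul_right _ hij
  have hmul' : ∀ i j, st i < st j → st i * (M + 1) + (M + 1) ≤ st j * (M + 1) := by
    intro i j hij
    have h1 : (st i + 1) * (M + 1) ≤ st j * (M + 1) := Nat.mul_le_mul_right _ hij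
    rw [Nat.succ_mul] at h1
    exact h1
  have hmono : ∀ s k, s + k ≤ m → X s ⊆ X (s + k) := by
    intro s k
    induction k with
    | zero => exact fun _ => Subset.refl _
    | succ k ih =>
      intro hk
      have h1 := (hS (s + (k + 1)) (by omega) hk).sub
      have e : s + (k + 1) - 1 = s + k := by omega
      rw [e] at h1
      exact (ih (by omega)).trans h1
  have hmono' : ∀ s s', s ≤ s' → s' ≤ m → X s ⊆ X s' := by
    intro s s' h1 h2
    obtain ⟨k, rfl⟩ := Nat.exists_eq_add_of_le h1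
    exact hmono s k h2
  obtain ⟨v0, hv0⟩ := h0
  obtain ⟨φ, hinj, hφ⟩ := greedyJ (V := V) (W := Fin n) root p (fun i => st i * (M + 1) + d i) (by
      intro i hi
      have h1 := hT.rank i hi
      have h2 := hmul (p i) i (hT.stm i hi)
      show st (p i) * (M + 1) + d (p i) < st i * (M + 1) + d i
      omega)
    (fun i u z => (T.Adj (p i) i → A u z) ∧ (T.Adj i (p i) → A z u))
    (fun i U v => v ∈ X (st i) ∧ v ∈ U ∧ (i ≠ root → ∃ x0 ∈ U, x0 ∈ X (st i - 1) ∧
      Ch (base (N (st i)) (H (st i))) U (q (st i)) (dd i) x0 v))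
    (by
      intro i U U' v hUU hI
      refine ⟨hI.1, hUU hI.2.1, fun hi => ?_⟩
      obtain ⟨x0, hx1, hx2, hx3⟩ := hI.2.2 hi
      exact ⟨x0, hUU hx1, hx2, ch_mono hUU _ _ _ _ hx3⟩)
    v0 ⟨by rw [hT.st0]; exact hv0, by simp, fun h => absurd rfl h⟩
    (by
      intro U i v hi hv hI hU
      obtain ⟨hs1, hsm⟩ := hT.st1 i hi
      have hSi := hS (st i) hs1 hsm
      have hUN : #U < N (st i) := by
        have hmem : i ∈ univ.filter (fun j => st j ≤ st i) := mem_filter.2 ⟨mem_univ _, le_rfl⟩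
        have hcard : #U ≤ #((univ.filter (fun j => st j ≤ st i)).erase i) := by
          refine le_trans hU (card_le_card ?_)
          intro j hj
          simp only [mem_filter] at hj
          obtain ⟨hji, hle⟩ := hj.2
          refine mem_erase.2 ⟨hji, mem_filter.2 ⟨mem_univ _, ?_⟩⟩
          by_contra hcon
          have h2 := hmul' i j (not_le.1 hcon)
          have h3 := hM i
          omega
        rw [card_erase_of_mem hmem] at hcard
        have hpos : 0 < #(univ.filter (fun j => st j ≤ st i)) := card_pos.2 ⟨i, hmem⟩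
        have hN' : #(univ.filter (fun j => st j ≤ st i)) ≤ N (st i) := hN (st i)
        omega
      have key : ∀ (L : ℕ) (x0 : V), dd i = L + 1 → x0 ∈ U → x0 ∈ X (st i - 1) → v ∈ X (st i) →
          Ch (base (N (st i)) (H (st i))) U (q (st i)) L x0 v →
          ∃ w, w ∉ U ∧ ((T.Adj (p i) i → A v w) ∧ (T.Adj i (p i) → A w v)) ∧
            (w ∈ X (st i) ∧ w ∈ insert w U ∧ (i ≠ root → ∃ x0 ∈ insert w U, x0 ∈ X (st i - 1) ∧
              Ch (base (N (st i)) (H (st i))) (insert w U) (q (st i)) (dd i) x0 w)) := by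
        intro L x0 hL hx0U hx0 hvX hch
        have hdd := hT.ddH i hi
        have hst := step_aux hSi hUN (L := L) (by omega) hx0 hvX hch
        by_cases hadj : T.Adj (p i) i
        · obtain ⟨w, hw1, hw2, hw3, hw4⟩ := hst.1
          refine ⟨w, hw2, ⟨fun _ => hw3, fun h => absurd h (hasym _ _ hadj)⟩, hw1,
            mem_insert_self w U, fun _ => ⟨x0, mem_insert_of_mem hx0U, hx0, ?_⟩⟩
          rw [hL]
          exact hw4
        · obtain ⟨w, hw1, hw2, hw3, hw4⟩ := hst.2
          refine ⟨w, hw2, ⟨fun h => absurd h hadj, fun _ => hw3⟩, hw1,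
            mem_insert_self w U, fun _ => ⟨x0, mem_insert_of_mem hx0U, hx0, ?_⟩⟩
          rw [hL]
          exact hw4
      rcases Nat.lt_or_ge (st (p i)) (st i) with h3 | h3
      · have hvs : v ∈ X (st i - 1) := hmono' (st (p i)) (st i - 1) (by omega) (by omega) hI.1
        have hvi : v ∈ X (st i) := hSi.sub hvs
        exact key 0 v (hT.dd1 i hi h3) hv hvs hvi ⟨rfl, hv⟩
      · have h5 : st (p i) = st i := le_antisymm (hT.stm i hi) h3
        have h7 : p i ≠ root := by
          intro e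
          rw [e, hT.st0] at h5
          omega
        obtain ⟨x0, hx1, hx2, hx3⟩ := hI.2.2 h7
        have hI1 := hI.1
        rw [h5] at hx2 hx3 hI1
        exact key (dd (p i)) x0 (hT.dd2 i hi h5) hx1 hx2 hI1 hx3)
  refine ⟨φ, hinj, fun a b hab => ?_⟩
  obtain ⟨i, hi, h⟩ := hT.cov a b hab
  rcases h with ⟨h1, h2⟩ | ⟨h1, h2⟩
  · subst h1
    have := (hφ i hi).2 (by rw [h2]; exact hab)
    rw [h2] at this
    exact this
  · subst h1
    have := (hφ i hi).1 (by rw [h2]; exact hab)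
    rw [h2] at this
    exact this

end Pool.KLS
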