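import Pool.Agent.AAT.Defs
import Pool.Agent.AAT.Rad

/-!
# KLS-LogF: logarithms of heights are bounded by powers of fringe sizes
PLAN. `hgt p v < (fr p v).card` (`hgt_lt`), so `log₂ (h + 2) ≤ log₂ (m + 1)`, `m = (fr p v).card ≥ 1`,
and `Nat.log 2 (m + 1) ≤ 4 m^(3/8)`: with `x = m^(3/8) ≥ 1`, `Nat.log 2 (m+1) ≤ Real.log (m+1) / Real.log 2`
and `Real.log (m+1) ≤ Real.log (2 m) = log 2 + (8/3) log x ≤ log 2 + (8/3) (x - 1)`... any proof.
For the sum: `r` itself contributes at most `Nat.log 2 (n + 1) ≤ n` (`hgt p r < n`).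
-/

set_option autoImplicit false

namespace Pool.KLS

open Finset Pool.AAT
open scoped Classical

theorem log_le_pow (m : ℕ) (hm : 1 ≤ m) : (Nat.log 2 (m + 1) : ℝ) ≤ 6 * (m : ℝ) ^ ((3 : ℝ) / 8) := by
  have hm0 : (0 : ℝ) < m := by exact_mod_cast hm
  have hm1 : (1 : ℝ) ≤ m := by exact_mod_cast hm
  have hl2 : (0.6931471803 : ℝ) < Real.log 2 := Real.log_two_gt_d9
  have h2 : (0 : ℝ) < Real.log 2 := by linarith
  set x : ℝ := (m : ℝ) ^ ((3 : ℝ) / 8) with hx
  have hx1 : 1 ≤ x := Real.one_le_rpow hm1 (by norm_num)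
  have hlogx : Real.log x = 3 / 8 * Real.log m := by
    rw [hx, Real.log_rpow hm0]
  have hlx : Real.log x ≤ x - 1 := Real.log_le_sub_one_of_pos (by linarith)
  have hpow : (2 : ℝ) ^ (Nat.log 2 (m + 1)) ≤ m + 1 := by
    exact_mod_cast Nat.pow_log_le_self 2 (show m + 1 ≠ 0 by omega)
  have h3 : (Nat.log 2 (m + 1) : ℝ) * Real.log 2 ≤ Real.log (m + 1) := by
    have := Real.log_le_log (by positivity) hpow
    rwa [Real.log_pow] at this
  have h4 : Real.log ((m : ℝ) + 1) ≤ Real.log 2 + Real.log m := by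
    rw [← Real.log_mul (by norm_num) hm0.ne']
    exact Real.log_le_log (by linarith) (by linarith)
  have h5 : (Nat.log 2 (m + 1) : ℝ) * Real.log 2 ≤ Real.log 2 + 8 / 3 * (x - 1) := by linarith
  have hL0 : (0 : ℝ) ≤ (Nat.log 2 (m + 1) : ℝ) := by positivity
  by_contra hcon
  push Not at hcon
  have h6 : 6 * x * Real.log 2 < (Nat.log 2 (m + 1) : ℝ) * Real.log 2 :=
    mul_lt_mul_of_pos_right hcon h2
  nlinarith

theorem sum_log_le {n : ℕ} (r : Fin n) (p : Fin n → Fin n) :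
    ((∑ v : Fin n, Nat.log 2 (hgt p v + 2) : ℕ) : ℝ) ≤
      n + 6 * ∑ v ∈ univ.erase r, ((fr p v).card : ℝ) ^ ((3 : ℝ) / 8) := by
  rw [← Finset.add_sum_erase univ _ (Finset.mem_univ r)]
  push_cast
  rw [Finset.mul_sum]
  have key : ∀ v : Fin n, Nat.log 2 (hgt p v + 2) ≤ Nat.log 2 ((fr p v).card + 1) := by
    intro v
    apply Nat.log_mono_right
    have := hgt_lt p v
    omega
  apply add_le_add
  · have h1 := hgt_lt p r
    have h2 : (fr p r).card ≤ n := by
      have := Finset.card_le_univ (fr p r)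
      simpa using this
    have h3 : Nat.log 2 (hgt p r + 2) ≤ n := by
      have : Nat.log 2 (hgt p r + 2) < hgt p r + 2 := Nat.log_lt_self 2 (by omega)
      omega
    exact_mod_cast h3
  · apply Finset.sum_le_sum
    intro v _
    have h1 : 1 ≤ (fr p v).card := by
      have := hgt_lt p v
      omega
    have h2 := log_le_pow _ h1
    have h3 : ((Nat.log 2 (hgt p v + 2) : ℕ) : ℝ) ≤ ((Nat.log 2 ((fr p v).card + 1) : ℕ) : ℝ) := by
      exact_mod_cast key v
    linarith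

end Pool.KLS
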