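import Pool.Agent.KLS.DetK
import Pool.Agent.KLS.ConcW
import Pool.Agent.KLS.LogF

/-!
# KLS-FinK: all orientations of almost all trees, linear

The concentration bound `concW` for the sum of the powers of the fringe sizes together with the
deterministic theorem `unavL`, counted with `card_trees`.
-/

set_option autoImplicit false

namespace Pool.KLS

open Finset Pool.KLT Pool.AAT
open scoped Classical

private theorem finK_tree {n : ℕ} (r : Fin n) (p : Fin n → Fin n) (hp : p ∈ Forest univ {r}) :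
    (SimpleGraph.fromRel (fun a b : Fin n => a ≠ r ∧ p a = b)).IsTree := by
  have h := (treeOf_otree r p hp (fun _ => true)).2
  rw [fromRel_treeOf] at h
  exact h

private theorem finK_det {n : ℕ} {C : ℝ} (hC : 0 < C) (r : Fin n)
    (p : Fin n → Fin n) (hp : p ∈ Forest univ {r})
    (h : ∑ v ∈ univ.erase r, ((fr p v).card : ℝ) ^ ((3 : ℝ) / 8) ≤ C * n) :
    AllOr n (SimpleGraph.fromRel (fun a b : Fin n => a ≠ r ∧ p a = b))
      (⌈216 * (1 + 6 * C)⌉₊ * n) := by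
  refine detK n _ (finK_tree r p hp) r _ ?_
  have h1 : ∑ v : Fin n, Nat.log 2
        (ghgt (SimpleGraph.fromRel (fun a b : Fin n => a ≠ r ∧ p a = b)) r v + 2) =
      ∑ v : Fin n, Nat.log 2 (hgt p v + 2) :=
    Finset.sum_congr rfl fun v _ => by rw [ghgt_eq r p hp v]
  rw [h1]
  have h2 := sum_log_le r p
  have hn0 : (0 : ℝ) ≤ (n : ℝ) := Nat.cast_nonneg n
  have h5 : 216 * (1 + 6 * C) ≤ (⌈216 * (1 + 6 * C)⌉₊ : ℝ) := Nat.le_ceil _
  have h6 : 216 * (1 + 6 * C) * n ≤ (⌈216 * (1 + 6 * C)⌉₊ : ℝ) * n :=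
    mul_le_mul_of_nonneg_right h5 hn0
  have h7 : ((216 * ∑ v : Fin n, Nat.log 2 (hgt p v + 2) : ℕ) : ℝ) ≤
      ((⌈216 * (1 + 6 * C)⌉₊ * n : ℕ) : ℝ) := by
    rw [Nat.cast_mul, Nat.cast_mul]
    refine le_trans ?_ h6
    have e1 : (((216 : ℕ) : ℝ)) = 216 := by norm_num
    rw [e1]
    nlinarith
  exact_mod_cast h7

private theorem finK_card {n : ℕ} (r : Fin n) (Q : SimpleGraph (Fin n) → Prop)
    (s : Finset (Fin n → Fin n))
    (hs : ∀ p, p ∈ s ↔ p ∈ (Forest univ {r} : Finset (Fin n → Fin n)) ∧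
      Q (SimpleGraph.fromRel (fun a b : Fin n => a ≠ r ∧ p a = b))) :
    s.card = {G : SimpleGraph (Fin n) | G.IsTree ∧ Q G}.ncard := by
  rw [← card_trees r Q]
  congr 1
  ext p
  rw [hs, Finset.mem_filter]

theorem finK : ∃ C : ℕ, Filter.Tendsto (fun n : ℕ =>
    ({G : SimpleGraph (Fin n) | G.IsTree ∧ ¬ AllOr n G (C * n)}.ncard : ℝ) /
      ({G : SimpleGraph (Fin n) | G.IsTree}.ncard : ℝ)) Filter.atTop (nhds 0) := by
  obtain ⟨C, hC, H⟩ := concW
  refine ⟨⌈216 * (1 + 6 * C)⌉₊, ?_⟩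
  rw [Metric.tendsto_atTop]
  intro ε hε
  obtain ⟨n0, hn0⟩ := H (ε / 2) (by positivity)
  refine ⟨max n0 1, ?_⟩
  intro n hn
  have hn2 : 1 ≤ n := le_trans (le_max_right _ _) hn
  have hnn : n0 ≤ n := le_trans (le_max_left _ _) hn
  obtain ⟨r⟩ : Nonempty (Fin n) := ⟨⟨0, by omega⟩⟩
  have h1 := hn0 n hnn r
  have h2 := finK_card r (fun G => ¬ AllOr n G (⌈216 * (1 + 6 * C)⌉₊ * n))
    ((Forest univ {r} : Finset (Fin n → Fin n)).filter (fun p => ¬ AllOr n
      (SimpleGraph.fromRel (fun a b : Fin n => a ≠ r ∧ p a = b))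
      (⌈216 * (1 + 6 * C)⌉₊ * n))) (fun p => Finset.mem_filter)
  have h3 := finK_card r (fun _ => True) (Forest univ {r}) (fun p => by simp)
  have h6 : {G : SimpleGraph (Fin n) | G.IsTree ∧ True} = {G : SimpleGraph (Fin n) | G.IsTree} := by
    ext T; simp
  rw [h6] at h3
  have h5 : {G : SimpleGraph (Fin n) | G.IsTree ∧
      ¬ AllOr n G (⌈216 * (1 + 6 * C)⌉₊ * n)}.ncard ≤
      ((Forest univ {r} : Finset (Fin n → Fin n)).filter
        (fun p => C * n < ∑ v ∈ univ.erase r, ((fr p v).card : ℝ) ^ ((3 : ℝ) / 8))).card := by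
    rw [← h2]
    apply Finset.card_le_card
    intro p hp
    rw [Finset.mem_filter] at hp ⊢
    refine ⟨hp.1, ?_⟩
    by_contra hle
    exact hp.2 (finK_det hC r p hp.1 (not_lt.1 hle))
  set A := {G : SimpleGraph (Fin n) | G.IsTree ∧
      ¬ AllOr n G (⌈216 * (1 + 6 * C)⌉₊ * n)}.ncard with hA
  set B := {G : SimpleGraph (Fin n) | G.IsTree}.ncard with hB
  have h7 : (A : ℝ) ≤ ε / 2 * B := by
    rw [← h3]
    exact (Nat.cast_le.mpr h5).trans h1
  rw [Real.dist_eq, sub_zero, abs_of_nonneg (by positivity)]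
  rcases Nat.eq_zero_or_pos B with h0 | h0
  · rw [h0]
    simpa using hε
  · rw [div_lt_iff₀ (by exact_mod_cast h0)]
    have : (0 : ℝ) < B := by exact_mod_cast h0
    nlinarith

end Pool.KLS
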