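import Pool.Agent.KLS.Defs
import Pool.Agent.AAT.HtA
import Pool.Agent.AAT.Rad
import Pool.Agent.AAT.ChainP

/-!
# KLS-LevS: the stages of a rooted tree by levels of heights
PLAN. `M = lev (hgt p r)`, `st i = if i = r then 0 else M + 1 - lev (hgt p i)`, `m = M + 1`,
`d = dep p r`; heights increase along parents (`hgt_parent`: `hgt p i < hgt p (p i)` for `i ≠ r`), so
`lev (hgt p i) ≤ lev (hgt p (p i)) ≤ M` (iterate up to `r`), `stm`, `st1`. `rank`: `dep_parent`; `cov`
from the definition of `treeOf` (see `unav_sum` in AAH/UnH). `dd i` = the least `k ≥ 1` with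
`st (p^[k] i) < st i` (exists: some iterate is `r`); `dd1`, `dd2` from `Nat.find`. `ddH` for
`H s = min (2 ^ (2 ^ (M + 2 - s))) (cnt st s)`: the vertices `i, p i, ..., p^[dd i - 1] i` are
different, not `r`, of the same stage `s`, level `j = M + 1 - s`, with increasing heights `h`,
`log₂ (h + 2) < 2 ^ (j+1)`, so `h + 2 < 2 ^ (2 ^ (j+1))`, hence `dd i ≤ 2 ^ (2 ^ (j+1))`; and they are
`dd i` elements counted by `cnt st s`.
-/

set_option autoImplicit false

namespace Pool.KLS

open Finset Pool.KLT Pool.AAT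
open scoped Classical

/-- The stages. -/
noncomputable def stL {n : ℕ} (r : Fin n) (p : Fin n → Fin n) (i : Fin n) : ℕ :=
  if i = r then 0 else lev (hgt p r) + 1 - lev (hgt p i)

private lemma forestL {α : Type} [Fintype α] {r : α} {p : α → α} (hp : p ∈ Forest univ {r}) :
    p r = r ∧ ∀ x, ∃ i : ℕ, p^[i] x = r := by
  unfold Forest at hp
  obtain ⟨-, h1, -, h3⟩ := mem_filter.1 hp
  refine ⟨h1 r (by simp), fun x => ?_⟩
  obtain ⟨i, hi⟩ := h3 x (mem_univ _)
  exact ⟨i, mem_singleton.1 hi⟩

private lemma hgt_iter {n : ℕ} (r : Fin n) (p : Fin n → Fin n) (hp : p ∈ Forest univ {r})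
    (i : Fin n) (k : ℕ) : hgt p i ≤ hgt p (p^[k] i) := by
  induction k with
  | zero => exact le_rfl
  | succ k ih =>
    rw [Function.iterate_succ_apply']
    refine ih.trans ?_
    by_cases h : p^[k] i = r
    · rw [h, (forestL hp).1]
    · have := hgt_parent r p hp _ h
      omega

private lemma lev_mono {a b : ℕ} (h : a ≤ b) : lev a ≤ lev b := by
  unfold lev
  exact Nat.log_mono_right (Nat.log_mono_right (by omega))

private lemma lev_lt {a l : ℕ} (h : lev a = l) : a + 2 < 2 ^ (2 ^ (l + 1)) := by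
  unfold lev at h
  have h1 : Nat.log 2 (a + 2) < 2 ^ (Nat.log 2 (Nat.log 2 (a + 2))).succ :=
    Nat.lt_pow_succ_log_self (by norm_num) _
  rw [h] at h1
  have h2 : a + 2 < 2 ^ (Nat.log 2 (a + 2)).succ := Nat.lt_pow_succ_log_self (by norm_num) _
  exact h2.trans_le (Nat.pow_le_pow_right (by norm_num) h1)

theorem stL_bd {n : ℕ} (r : Fin n) (p : Fin n → Fin n) (hp : p ∈ Forest univ {r}) (i : Fin n) :
    lev (hgt p i) ≤ lev (hgt p r) := by
  obtain ⟨k, hk⟩ := (forestL hp).2 i
  have h := hgt_iter r p hp i k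
  rw [hk] at h
  exact lev_mono h

private lemma stL_root {n : ℕ} (r : Fin n) (p : Fin n → Fin n) : stL r p r = 0 := by
  unfold stL
  rw [if_pos rfl]

private lemma stL_ne {n : ℕ} (r : Fin n) (p : Fin n → Fin n) (i : Fin n) (hi : i ≠ r) :
    stL r p i = lev (hgt p r) + 1 - lev (hgt p i) := by
  unfold stL
  rw [if_neg hi]

private lemma stL_st1 {n : ℕ} (r : Fin n) (p : Fin n → Fin n) (hp : p ∈ Forest univ {r})
    (i : Fin n) (hi : i ≠ r) : 1 ≤ stL r p i ∧ stL r p i ≤ lev (hgt p r) + 1 := by
  have h := stL_bd r p hp i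
  rw [stL_ne r p i hi]
  omega

private lemma stL_par {n : ℕ} (r : Fin n) (p : Fin n → Fin n) (hp : p ∈ Forest univ {r})
    (i : Fin n) : stL r p (p i) ≤ stL r p i := by
  by_cases hi : i = r
  · rw [hi, (forestL hp).1]
  · by_cases h : p i = r
    · rw [h, stL_root]
      exact Nat.zero_le _
    · have h1 := lev_mono (show hgt p i ≤ hgt p (p i) by
        have := hgt_parent r p hp i hi
        omega)
      rw [stL_ne r p i hi, stL_ne r p _ h]
      omega

private lemma stL_iter {n : ℕ} (r : Fin n) (p : Fin n → Fin n) (hp : p ∈ Forest univ {r})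
    (i : Fin n) (k : ℕ) : stL r p (p^[k] i) ≤ stL r p i := by
  induction k with
  | zero => exact le_rfl
  | succ k ih =>
    rw [Function.iterate_succ_apply']
    exact (stL_par r p hp _).trans ih

private lemma exD {n : ℕ} (r : Fin n) (p : Fin n → Fin n) (hp : p ∈ Forest univ {r})
    (i : Fin n) (hi : i ≠ r) : ∃ k : ℕ, 1 ≤ k ∧ stL r p (p^[k] i) < stL r p i := by
  obtain ⟨k, hk⟩ := (forestL hp).2 i
  refine ⟨k, ?_, ?_⟩
  · rcases Nat.eq_zero_or_pos k with h | h
    · rw [h] at hk
      exact absurd hk hi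
    · exact h
  · rw [hk, stL_root]
    exact (stL_st1 r p hp i hi).1

private lemma dd_bd {n : ℕ} (r : Fin n) (p : Fin n → Fin n) (hp : p ∈ Forest univ {r})
    (i : Fin n) (hi : i ≠ r) (D : ℕ) (hD1 : 1 ≤ D)
    (hD : ∀ j, 1 ≤ j → j < D → ¬ stL r p (p^[j] i) < stL r p i) :
    D ≤ min (2 ^ (2 ^ (lev (hgt p r) + 2 - stL r p i))) (Pool.AAT.cnt (stL r p) (stL r p i)) := by
  have hst : ∀ j < D, stL r p (p^[j] i) = stL r p i := by
    intro j hj
    rcases Nat.eq_zero_or_pos j with h | h
    · rw [h]; rfl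
    · exact le_antisymm (stL_iter r p hp i j) (not_lt.1 (hD j h hj))
  have hne : ∀ j < D, p^[j] i ≠ r := by
    intro j hj h
    have h1 := hst j hj
    rw [h, stL_root] at h1
    have h2 := (stL_st1 r p hp i hi).1
    omega
  have hstep : ∀ j, j < D → hgt p (p^[j] i) + 1 ≤ hgt p (p^[j + 1] i) := by
    intro j hj
    rw [Function.iterate_succ_apply']
    exact hgt_parent r p hp _ (hne j hj)
  have hgt1 : ∀ a k, a + k < D → hgt p (p^[a] i) + k ≤ hgt p (p^[a + k] i) := by
    intro a k
    induction k with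
    | zero => intro _; exact le_rfl
    | succ k ih =>
      intro hk
      have h1 := ih (by omega)
      have h2 := hstep (a + k) (by omega)
      have e : a + (k + 1) = a + k + 1 := by omega
      rw [e]
      omega
  refine le_min ?_ ?_
  · have h1 := hgt1 0 (D - 1) (by omega)
    rw [zero_add] at h1
    have h2 := hst (D - 1) (by omega)
    have h3 := hne (D - 1) (by omega)
    have h4 := stL_bd r p hp (p^[D - 1] i)
    have h5 : lev (hgt p (p^[D - 1] i)) = lev (hgt p r) + 1 - stL r p i := by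
      rw [← h2, stL_ne r p _ h3]
      omega
    have h6 := lev_lt h5
    have h7 := (stL_st1 r p hp i hi).2
    have e : lev (hgt p r) + 1 - stL r p i + 1 = lev (hgt p r) + 2 - stL r p i := by omega
    rw [e] at h6
    omega
  · unfold Pool.AAT.cnt
    have h1 : #((range D).image (fun j => p^[j] i)) ≤
        #(univ.filter (fun j => stL r p j ≤ stL r p i)) := by
      apply card_le_card
      intro x hx
      obtain ⟨j, hj, rfl⟩ := mem_image.1 hx
      exact mem_filter.2 ⟨mem_univ _, stL_iter r p hp i j⟩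
    have h2 : #((range D).image (fun j => p^[j] i)) = D := by
      rw [card_image_of_injOn, card_range]
      have key : ∀ a b, a < b → b < D → p^[a] i ≠ p^[b] i := by
        intro a b hab hb h
        have h3 := hgt1 a (b - a) (by omega)
        have e : a + (b - a) = b := by omega
        rw [e, h] at h3
        omega
      intro a ha b hb hab
      have ha' : a < D := by simpa using ha
      have hb' : b < D := by simpa using hb
      rcases lt_trichotomy a b with h | h | h
      · exact absurd hab (key a b h hb')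
      · exact h
      · exact absurd hab.symm (key b a h ha')
    rw [h2] at h1
    exact h1

theorem rtkL {n : ℕ} (r : Fin n) (p : Fin n → Fin n) (hp : p ∈ Forest univ {r})
    (e : Fin n → Bool) :
    ∃ dd : Fin n → ℕ, RTK n (treeOf r p e) r p (dep p r) (lev (hgt p r) + 1) (stL r p) dd
      (fun s => min (2 ^ (2 ^ (lev (hgt p r) + 2 - s))) (Pool.AAT.cnt (stL r p) s)) := by
  refine ⟨fun i => if hi : i = r then 0 else Nat.find (exD r p hp i hi), ?_⟩
  refine { rank := ?_, cov := ?_, st0 := stL_root r p, st1 := stL_st1 r p hp, stm := ?_,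
           dd1 := ?_, dd2 := ?_, ddH := ?_ }
  · intro i hi
    have := dep_parent r p hp i hi
    omega
  · intro x y hxy
    rcases hxy with ⟨h1, h2, h3⟩ | ⟨h1, h2, h3⟩
    · exact ⟨x, h1, Or.inl ⟨rfl, h2⟩⟩
    · exact ⟨y, h1, Or.inr ⟨rfl, h2⟩⟩
  · intro i _
    exact stL_par r p hp i
  · intro i hi h
    show (if hi : i = r then 0 else Nat.find (exD r p hp i hi)) = 1
    rw [dif_neg hi, Nat.find_eq_iff]
    refine ⟨⟨le_rfl, h⟩, fun k hk h1 => ?_⟩
    omega
  · intro i hi h
    have h1 := (stL_st1 r p hp i hi).1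
    have hpi : p i ≠ r := by
      intro e
      rw [e, stL_root] at h
      omega
    show (if hi : i = r then 0 else Nat.find (exD r p hp i hi)) =
      (if hi : p i = r then 0 else Nat.find (exD r p hp (p i) hi)) + 1
    rw [dif_neg hi, dif_neg hpi, Nat.find_eq_iff]
    have hs := Nat.find_spec (exD r p hp (p i) hpi)
    refine ⟨⟨by omega, ?_⟩, fun k hk h2 => ?_⟩
    · rw [Function.iterate_succ_apply, ← h]
      exact hs.2
    · obtain ⟨h3, h4⟩ := h2
      obtain ⟨k', rfl⟩ : ∃ k', k = k' + 1 := ⟨k - 1, by omega⟩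
      rw [Function.iterate_succ_apply, ← h] at h4
      rcases Nat.eq_zero_or_pos k' with h5 | h5
      · rw [h5] at h4
        exact absurd h4 (lt_irrefl _)
      · exact Nat.find_min (exD r p hp (p i) hpi) (by omega) ⟨h5, h4⟩
  · intro i hi
    show (if hi : i = r then 0 else Nat.find (exD r p hp i hi)) ≤ _
    rw [dif_neg hi]
    refine dd_bd r p hp i hi _ (Nat.find_spec (exD r p hp i hi)).1 fun j hj1 hj2 h => ?_
    exact Nat.find_min (exD r p hp i hi) hj2 ⟨hj1, h⟩

end Pool.KLS
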