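import Pool.Agent.KLS.Defs

/-!
# KLS-NumC: the number of colours of one stage
-/

set_option autoImplicit false

namespace Pool.KLS

open Finset Pool.KLT

private theorem round_le (P R : ℕ) : ((P + 1 + R - 1) / R) * R ≤ P + R := by
  refine (Nat.div_mul_le_self _ _).trans ?_
  omega

private theorem geo4 (b m : ℕ) : 3 * (∑ s ∈ range (m + 1), 2 * 4 ^ (b + s)) ≤ 8 * 4 ^ (b + m) := by
  induction m with
  | zero =>
    rw [sum_range_one]
    omega
  | succ m ih =>
    rw [sum_range_succ, mul_add]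
    have h : 4 ^ (b + (m + 1)) = 4 * 4 ^ (b + m) := by
      rw [← add_assoc, pow_succ, mul_comm]
    rw [h]
    omega

private theorem pow_top (N : ℕ) (h : 1 ≤ N) : 4 ^ top N ≤ 4 * N := by
  unfold top
  rcases Nat.lt_or_ge 1 N with h1 | h1
  · have h2 := Nat.pow_pred_clog_lt_self (b := 4) (by norm_num) h1
    have h3 : 0 < Nat.clog 4 N := Nat.clog_pos (by norm_num) h1
    have h4 : 4 ^ Nat.clog 4 N = 4 * 4 ^ (Nat.clog 4 N).pred := by
      obtain ⟨k, hk⟩ := Nat.exists_eq_succ_of_ne_zero h3.ne'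
      rw [hk, Nat.pred_succ, pow_succ, mul_comm]
    rw [h4]
    exact Nat.mul_le_mul_left 4 h2.le
  · have h2 : N = 1 := le_antisymm h1 h
    subst h2
    simp

theorem cst_le (N H : ℕ) (h1 : 1 ≤ H) (h2 : H ≤ N) : cst N H ≤ 18 * N * (Nat.log 2 H + 8) := by
  have hN : 1 ≤ N := h1.trans h2
  have hNH : N / H ≠ 0 := by
    have := Nat.div_pos h2 h1
    omega
  have hb : 4 ^ base N H * H ≤ N := by
    unfold base
    exact (Nat.mul_le_mul_right H (Nat.pow_log_le_self 4 hNH)).trans (Nat.div_mul_le_self N H)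
  have hP : pos N H ≤ 18 * N := by
    unfold pos
    have : 2 * 4 ^ base N H * H = 2 * (4 ^ base N H * H) := by ring
    rw [this]
    omega
  have hbig : N < 4 ^ (base N H + 1) * H := by
    have h3 : N / H < 4 ^ (base N H + 1) := by
      unfold base
      exact Nat.lt_pow_succ_log_self (by norm_num) _
    exact (Nat.div_lt_iff_lt_mul h1).1 h3
  have hbK : base N H ≤ top N := by
    have h3 : 4 ^ base N H ≤ 4 ^ top N := by
      have h4 : 4 ^ base N H ≤ N := (Nat.le_mul_of_pos_right _ h1).trans hb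
      exact h4.trans (Nat.le_pow_clog (by norm_num) N)
    exact (Nat.pow_le_pow_iff_right (by norm_num)).1 h3
  have hsc : top N - base N H + 1 ≤ Nat.log 4 H + 3 := by
    rcases Nat.lt_or_ge 1 N with h3 | h3
    · have h4 := Nat.pow_pred_clog_lt_self (b := 4) (by norm_num) h3
      have h5 : H < 4 ^ (Nat.log 4 H + 1) := Nat.lt_pow_succ_log_self (by norm_num) _
      have h6 : 4 ^ (Nat.clog 4 N).pred < 4 ^ (base N H + 1 + (Nat.log 4 H + 1)) := by
        refine h4.trans (hbig.trans ?_)
        rw [pow_add 4 (base N H + 1) (Nat.log 4 H + 1)]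
        exact mul_lt_mul_of_pos_left h5 (by positivity)
      have h7 := (Nat.pow_lt_pow_iff_right (by norm_num)).1 h6
      rw [Nat.pred_eq_sub_one] at h7
      unfold top
      omega
    · have h4 : N = 1 := le_antisymm h3 hN
      have h5 : top N = 0 := by
        rw [h4]
        unfold top
        simp
      omega
  have hlog : 2 * Nat.log 4 H ≤ Nat.log 2 H := by
    refine Nat.le_log_of_pow_le (by norm_num) ?_
    rw [pow_mul]
    exact Nat.pow_log_le_self 4 (by omega)
  obtain ⟨m, hm⟩ : ∃ m, top N = base N H + m := ⟨top N - base N H, by omega⟩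
  have hm2 : top N - base N H + 1 = m + 1 := by omega
  rw [hm2] at hsc
  have hsum : ∑ s ∈ range (m + 1),
      ((pos N H + 1 + (2 * 4 ^ (base N H + s) - 1) - 1) / (2 * 4 ^ (base N H + s) - 1)) *
        (2 * 4 ^ (base N H + s) - 1) ≤ ∑ s ∈ range (m + 1), (18 * N + 2 * 4 ^ (base N H + s)) := by
    refine sum_le_sum fun s _ => ?_
    refine (round_le _ _).trans ?_
    omega
  rw [sum_add_distrib, sum_const, card_range, smul_eq_mul] at hsum
  have hg := geo4 (base N H) m
  have ht := pow_top N hN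
  rw [hm] at ht
  have h8 : (m + 1) * (18 * N) ≤ (Nat.log 4 H + 3) * (18 * N) := Nat.mul_le_mul_right _ hsc
  have h9 : 18 * N * (2 * Nat.log 4 H + 8) ≤ 18 * N * (Nat.log 2 H + 8) :=
    Nat.mul_le_mul_left _ (by omega)
  refine le_trans ?_ h9
  unfold cst
  rw [hm2]
  have h10 : 18 * N * (2 * Nat.log 4 H + 8) = 2 * ((Nat.log 4 H + 3) * (18 * N)) + 36 * N := by ring
  rw [h10]
  omega

end Pool.KLS
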