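import Pool.Agent.KLS.Defs

/-!
# KLS-StageE: one stage: equilibrium and colouring inside a set `X`
PLAN. Apply `Pool.KLT.equilibrium` to `A' u v := A u v ∧ u ∈ X ∧ v ∈ X`, `k s = 4 ^ (base + s)`,
`R s = 2 * 4 ^ (base + s) - 1`, `K = top N - base N H`, `p = pos N H + 2`. `Y` = the vertices of
position `pos N H + 1`. `Y ⊆ X`: a vertex with `0 < q v` has `1 ≤ k 0 ≤ cnt A' ...`, so it is in `X`.
`good`: `s = base + s'`, `R s' + 1 = 2 * 4 ^ s`; `cnt A'` counts a subset of the filter of `X`.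
(`base N H ≤ top N` is not needed: if `s` is in `[base, top]` then `s - base ≤ K`.)
Colouring of `X \ Y`: all `v` outside `Y` have `q v + 1 < p`, so they are happy; to apply
`Pool.KLT.col_happy` use the positions `q' v := min (q v) (pos N H)` or better the relation
`A'' u v := A' u v ∧ u ∉ Y ∧ v ∉ Y` with `q' = q` outside `Y` and `q' = 0` on `Y`
(`cnt A'' q' v ρ ≤ cnt A' q v ρ` for `v ∉ Y`; for `v ∈ Y` `cnt A'' = 0`), `P = pos N H + 1`.
A colouring `Colorable (cst N H)` of `fromRel A''` gives `c` (`cst N H = 0` only if there is no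
vertex; take the colouring into `Fin (cst N H)`, values `< cst N H`).
-/

set_option autoImplicit false

namespace Pool.KLS

open Finset Pool.KLT
open scoped Classical

private theorem cnt_le {V : Type} [Fintype V] (A : V → V → Prop) (q : V → ℕ) (v : V) (ρ : ℕ) (Z : Finset V)
    (h : ∀ w, A v w → q w ≤ q v + ρ → q v ≤ q w + ρ → w ∈ Z) : cnt A q v ρ ≤ #Z := by
  unfold cnt
  refine card_le_card fun w hw => ?_
  have hw' := (mem_filter.1 hw).2
  exact h w hw'.1 hw'.2.1 hw'.2.2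

private theorem cnt_mono {V : Type} [Fintype V] (A A' : V → V → Prop) (q q' : V → ℕ) (v : V) (ρ : ℕ)
    (h : ∀ w, A v w → q w ≤ q v + ρ → q v ≤ q w + ρ → A' v w ∧ q' w ≤ q' v + ρ ∧ q' v ≤ q' w + ρ) :
    cnt A q v ρ ≤ cnt A' q' v ρ := by
  unfold cnt
  refine card_le_card fun w hw => ?_
  have hw' := (mem_filter.1 hw).2
  exact mem_filter.2 ⟨mem_univ _, h w hw'.1 hw'.2.1 hw'.2.2⟩

private theorem cnt_ex {V : Type} [Fintype V] (A : V → V → Prop) (q : V → ℕ) (v : V) (ρ : ℕ)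
    (h : 0 < cnt A q v ρ) : ∃ w, A v w := by
  unfold cnt at h
  obtain ⟨w, hw⟩ := Finset.card_pos.1 h
  exact ⟨w, (mem_filter.1 hw).2.1⟩

theorem stageE {V : Type} [Fintype V] (A : V → V → Prop) (N H : ℕ) (X : Finset V) :
    ∃ (q : V → ℕ) (Y : Finset V), Stg A N H X Y q ∧
      ∃ c : V → ℕ, (∀ v, c v < cst N H) ∧
        ∀ u ∈ X \ Y, ∀ v ∈ X \ Y, u ≠ v → A u v → c u ≠ c v := by
  have hRpos : ∀ s : ℕ, 1 ≤ 2 * 4 ^ (base N H + s) - 1 := by
    intro s
    have h1 : 1 ≤ 4 ^ (base N H + s) := Nat.one_le_pow _ _ (by norm_num)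
    omega
  have hR1 : ∀ s : ℕ, 2 * 4 ^ (base N H + s) - 1 + 1 = 2 * 4 ^ (base N H + s) := by
    intro s
    have h1 : 1 ≤ 4 ^ (base N H + s) := Nat.one_le_pow _ _ (by norm_num)
    omega
  obtain ⟨q, hq, hq1, hq2⟩ := equilibrium (fun u v => A u v ∧ u ∈ X ∧ v ∈ X) (fun s => 4 ^ (base N H + s))
    (fun s => 2 * 4 ^ (base N H + s) - 1) hRpos (top N - base N H) (pos N H + 2) (by omega)
  simp only [hR1] at hq1
  refine ⟨q, univ.filter (fun v => q v = pos N H + 1), ⟨?_, ?_, ?_⟩, ?_⟩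
  · intro v hv
    have hv' := (mem_filter.1 hv).2
    have h1 := (hq1 v (by omega) 0 (Nat.zero_le _)).1
    obtain ⟨w, hw⟩ := cnt_ex _ q v _ (lt_of_lt_of_le (by positivity) h1)
    exact hw.2.1
  · intro v hv
    have hv' := (mem_filter.1 hv).2
    omega
  · intro v hvX hv s hs1 hs2
    obtain ⟨t, rfl⟩ := Nat.exists_eq_add_of_le hs1
    have h1 := hq1 v hv t (by omega)
    exact ⟨h1.1.trans (cnt_le _ q v _ _ fun w hw h2 h3 => mem_filter.2 ⟨hw.2.2, hw.1, h2, h3⟩),
      h1.2.trans (cnt_le _ q v _ _ fun w hw h2 h3 => mem_filter.2 ⟨hw.2.1, hw.1, h2, h3⟩)⟩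
  · have hcol := col_happy (fun u v => (A u v ∧ u ∈ X ∧ v ∈ X) ∧ q u ≤ pos N H ∧ q v ≤ pos N H)
      (fun s => 4 ^ (base N H + s)) (fun s => 2 * 4 ^ (base N H + s) - 1)
      (fun s => Nat.one_le_pow _ _ (by norm_num)) hRpos (top N - base N H) (pos N H + 1)
      (fun v => if q v ≤ pos N H then q v else 0)
      (fun v => by
        by_cases h : q v ≤ pos N H
        · simp only [h, if_true]
          omega
        · simp only [h, if_false]
          omega)
      (fun v => by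
        by_cases h : q v ≤ pos N H
        · obtain ⟨s, hs, h1⟩ := hq2 v (by omega)
          refine ⟨s, hs, h1.imp (fun h2 => lt_of_le_of_lt ?_ h2) (fun h2 => lt_of_le_of_lt ?_ h2)⟩
          · refine cnt_mono _ _ _ _ _ _ fun w hw h3 h4 => ?_
            simp only [h, hw.2.2, if_true] at h3 h4
            exact ⟨hw.1, h3, h4⟩
          · refine cnt_mono _ _ _ _ _ _ fun w hw h3 h4 => ?_
            simp only [h, hw.2.1, if_true] at h3 h4
            exact ⟨hw.1, h3, h4⟩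
        · refine ⟨0, Nat.zero_le _, Or.inl ?_⟩
          rw [Nat.lt_iff_add_one_le, ← not_lt]
          intro h1
          obtain ⟨w, hw⟩ := cnt_ex _ _ _ _ (lt_of_lt_of_le (by positivity) (Nat.lt_succ_iff.1 h1))
          exact h hw.2.1)
    obtain ⟨c⟩ := hcol
    refine ⟨fun v => (c v : ℕ), fun v => (c v).2, ?_⟩
    intro u hu v hv huv hA hc
    have hu' := mem_sdiff.1 hu
    have hv' := mem_sdiff.1 hv
    have h1 : q u ≤ pos N H := by
      have h2 := hq u
      have h3 : q u ≠ pos N H + 1 := fun h => hu'.2 (mem_filter.2 ⟨mem_univ _, h⟩)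
      omega
    have h1' : q v ≤ pos N H := by
      have h2 := hq v
      have h3 : q v ≠ pos N H + 1 := fun h => hv'.2 (mem_filter.2 ⟨mem_univ _, h⟩)
      omega
    refine c.valid (v := u) (w := v) ?_ (Fin.ext hc)
    rw [SimpleGraph.fromRel_adj]
    exact ⟨huv, Or.inl ⟨⟨hA, hu'.1, hv'.1⟩, h1, h1'⟩⟩

end Pool.KLS
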