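import Pool.Agent.KLS.NumC
import Pool.Agent.KLS.LevS

/-!
# KLS-SumK: the total cost of the stages
-/

set_option autoImplicit false

namespace Pool.KLS

open Finset Pool.KLT Pool.AAT
open scoped Classical

private theorem geo (l : ℕ) : (∑ j ∈ range (l + 1), (2 ^ (j + 1) + 8)) + 2 = 2 ^ (l + 2) + 8 * (l + 1) := by
  induction l with
  | zero => simp
  | succ l ih =>
    rw [sum_range_succ, add_right_comm, ih]
    have h : 2 ^ (l + 1 + 2) = 2 * 2 ^ (l + 2) := by
      rw [pow_succ, mul_comm]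
    have h' : 2 ^ (l + 1 + 1) = 2 ^ (l + 2) := rfl
    rw [h, h']
    ring

private theorem per (h : ℕ) : (∑ j ∈ range (lev h + 1), (2 ^ (j + 1) + 8)) + 2 ≤ 12 * Nat.log 2 (h + 2) := by
  rw [geo]
  have hL : 1 ≤ Nat.log 2 (h + 2) := by
    have := (Nat.le_log_iff_pow_le (b := 2) (x := 1) (y := h + 2) (by norm_num) (by omega)).2 (by omega)
    exact this
  have h1 : 2 ^ lev h ≤ Nat.log 2 (h + 2) := by
    unfold lev
    exact Nat.pow_log_le_self 2 (by omega)
  have h2 : lev h + 1 ≤ 2 ^ lev h := Nat.lt_two_pow_self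
  have h3 : 2 ^ (lev h + 2) = 4 * 2 ^ lev h := by
    rw [pow_add]
    ring
  rw [h3]
  omega

private theorem cnt_eq {n : ℕ} (r : Fin n) (p : Fin n → Fin n) (s : ℕ) (h1 : 1 ≤ s) :
    Pool.AAT.cnt (stL r p) s = (univ.filter fun i : Fin n => lev (hgt p r) + 1 - s ≤ lev (hgt p i)).card := by
  unfold Pool.AAT.cnt
  congr 1
  ext i
  rw [mem_filter, mem_filter]
  refine and_congr Iff.rfl ?_
  unfold stL
  by_cases hi : i = r
  · rw [if_pos hi, hi]
    constructor
    · intro _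
      omega
    · intro _
      omega
  · rw [if_neg hi]
    omega

private theorem one_le_cnt {n : ℕ} (r : Fin n) (p : Fin n → Fin n) (s : ℕ) :
    1 ≤ Pool.AAT.cnt (stL r p) s := by
  unfold Pool.AAT.cnt
  refine card_pos.2 ⟨r, mem_filter.2 ⟨mem_univ _, ?_⟩⟩
  unfold stL
  rw [if_pos rfl]
  exact Nat.zero_le _

theorem sumK {n : ℕ} (r : Fin n) (p : Fin n → Fin n) (hp : p ∈ Forest univ {r}) :
    ∑ s ∈ Icc 1 (lev (hgt p r) + 1), cst (Pool.AAT.cnt (stL r p) s)
        (min (2 ^ (2 ^ (lev (hgt p r) + 2 - s))) (Pool.AAT.cnt (stL r p) s)) + 1 ≤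
      216 * ∑ i : Fin n, Nat.log 2 (hgt p i + 2) := by
  have hb := stL_bd r p hp
  have e1 : ∀ s ∈ Icc 1 (lev (hgt p r) + 1), cst (Pool.AAT.cnt (stL r p) s)
        (min (2 ^ (2 ^ (lev (hgt p r) + 2 - s))) (Pool.AAT.cnt (stL r p) s)) ≤
      18 * ((univ.filter fun i : Fin n => lev (hgt p r) + 1 - s ≤ lev (hgt p i)).card *
        (2 ^ (lev (hgt p r) + 1 - s + 1) + 8)) := by
    intro s hs
    rw [mem_Icc] at hs
    have h1 : 1 ≤ min (2 ^ (2 ^ (lev (hgt p r) + 2 - s))) (Pool.AAT.cnt (stL r p) s) :=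
      le_min Nat.one_le_two_pow (one_le_cnt r p s)
    refine (cst_le _ _ h1 (min_le_right _ _)).trans ?_
    rw [mul_assoc]
    refine Nat.mul_le_mul_left 18 ?_
    rw [← cnt_eq r p s hs.1]
    refine Nat.mul_le_mul_left _ ?_
    refine Nat.add_le_add_right ?_ 8
    have h2 : Nat.log 2 (min (2 ^ (2 ^ (lev (hgt p r) + 2 - s))) (Pool.AAT.cnt (stL r p) s)) ≤
        Nat.log 2 (2 ^ (2 ^ (lev (hgt p r) + 2 - s))) := Nat.log_mono_right (min_le_left _ _)
    rw [Nat.log_pow (by norm_num)] at h2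
    have h3 : lev (hgt p r) + 2 - s = lev (hgt p r) + 1 - s + 1 := by omega
    rw [← h3]
    exact h2
  have e2 := sum_le_sum e1
  have e3 : ∑ s ∈ Icc 1 (lev (hgt p r) + 1), 18 * ((univ.filter fun i : Fin n =>
        lev (hgt p r) + 1 - s ≤ lev (hgt p i)).card * (2 ^ (lev (hgt p r) + 1 - s + 1) + 8)) =
      ∑ j ∈ range (lev (hgt p r) + 1), 18 * ((univ.filter fun i : Fin n =>
        j ≤ lev (hgt p i)).card * (2 ^ (j + 1) + 8)) := by
    refine sum_nbij' (fun s => lev (hgt p r) + 1 - s) (fun j => lev (hgt p r) + 1 - j) ?_ ?_ ?_ ?_ ?_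
    · intro s hs
      rw [mem_Icc] at hs
      rw [mem_range]
      omega
    · intro j hj
      rw [mem_range] at hj
      rw [mem_Icc]
      omega
    · intro s hs
      rw [mem_Icc] at hs
      show lev (hgt p r) + 1 - (lev (hgt p r) + 1 - s) = s
      omega
    · intro j hj
      rw [mem_range] at hj
      show lev (hgt p r) + 1 - (lev (hgt p r) + 1 - j) = j
      omega
    · intro s _
      rfl
  have e4 : ∑ j ∈ range (lev (hgt p r) + 1), 18 * ((univ.filter fun i : Fin n =>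
        j ≤ lev (hgt p i)).card * (2 ^ (j + 1) + 8)) =
      18 * ∑ i : Fin n, ∑ j ∈ range (lev (hgt p i) + 1), (2 ^ (j + 1) + 8) := by
    rw [← mul_sum]
    congr 1
    have e5 : ∀ j ∈ range (lev (hgt p r) + 1), (univ.filter fun i : Fin n =>
        j ≤ lev (hgt p i)).card * (2 ^ (j + 1) + 8) =
        ∑ i : Fin n, if j ≤ lev (hgt p i) then (2 ^ (j + 1) + 8) else 0 := by
      intro j _
      rw [← sum_filter, sum_const, smul_eq_mul]
    rw [sum_congr rfl e5, sum_comm]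
    refine sum_congr rfl fun i _ => ?_
    rw [← sum_filter]
    refine sum_congr ?_ fun _ _ => rfl
    ext j
    rw [mem_filter, mem_range, mem_range]
    have := hb i
    omega
  have e6 : ∑ i : Fin n, ((∑ j ∈ range (lev (hgt p i) + 1), (2 ^ (j + 1) + 8)) + 2) ≤
      ∑ i : Fin n, 12 * Nat.log 2 (hgt p i + 2) := sum_le_sum fun i _ => per (hgt p i)
  rw [sum_add_distrib, sum_const, card_univ, Fintype.card_fin, smul_eq_mul, ← mul_sum] at e6
  have hn : 1 ≤ n := by
    have := r.2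
    omega
  rw [e3, e4] at e2
  omega

end Pool.KLS
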